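import Pool.Agent.Y26.FK.HYP

/-! Consequence of a saving of an arbitrary power of the logarithm. -/

set_option autoImplicit false

open Finset MeasureTheory Filter

open scoped Classical

namespace Pool.Agent.Y755.FKL

open Pool.Agent.Y755.FK Pool.Agent.Y26.FK

noncomputable section

theorem base : IntegrableOn (fun t : ℝ => t⁻¹ / (1 + Real.log t) ^ 2) (Set.Ioi 1) := by
  have hd : ∀ t ∈ Set.Ici (1:ℝ), HasDerivAt (fun t : ℝ => -(1 + Real.log t)⁻¹)
      (t⁻¹ / (1 + Real.log t) ^ 2) t := by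
    intro t ht
    have ht1 : (1:ℝ) ≤ t := ht
    have hl : 0 ≤ Real.log t := Real.log_nonneg ht1
    have h1 : HasDerivAt (fun t : ℝ => 1 + Real.log t) t⁻¹ t :=
      (Real.hasDerivAt_log (by linarith)).const_add 1
    have h2 := (h1.fun_inv (by linarith)).fun_neg
    refine h2.congr_deriv ?_
    ring
  refine integrableOn_Ioi_deriv_of_nonneg' (l := 0) hd (fun t ht => ?_) ?_
  · have ht1 : (1:ℝ) < t := ht
    have hl : 0 ≤ Real.log t := Real.log_nonneg ht1.le
    positivity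
  · have h1 : Tendsto (fun t : ℝ => 1 + Real.log t) atTop atTop :=
      tendsto_atTop_add_const_left _ _ Real.tendsto_log_atTop
    have h2 := (tendsto_inv_atTop_zero.comp h1).neg
    simpa using h2

section

variable {a : ℕ → ℝ} {c : ℝ} (ha : ∀ k, 0 ≤ a k)
  (hE : ∀ A : ℕ, ∃ K : ℝ, 0 ≤ K ∧ ∀ t : ℝ, 1 ≤ t → |EA a c t| ≤ K * t / (1 + Real.log t) ^ A)

include hE in
theorem EA_le (m : ℕ) : ∃ K : ℝ, 0 ≤ K ∧ ∀ t : ℝ, 1 < t → ∀ y : ℝ, 0 ≤ y →
    |EA a c t * t ^ (-(2 + y))| * Real.log t ^ m ≤ K * (t⁻¹ / (1 + Real.log t) ^ 2) := by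
  obtain ⟨K, hK, h⟩ := hE (m + 2)
  refine ⟨K, hK, fun t ht y hy => ?_⟩
  have ht0 : 0 < t := by linarith
  have hl : 0 ≤ Real.log t := Real.log_nonneg ht.le
  have h1 := h t ht.le
  have h2 : t ^ (-(2 + y)) ≤ t ^ (-(2:ℝ)) := Real.rpow_le_rpow_of_exponent_le ht.le (by linarith)
  have h3 : t ^ (-(2:ℝ)) = t⁻¹ * t⁻¹ := by
    rw [Real.rpow_neg ht0.le, show (2:ℝ) = ((2:ℕ):ℝ) by norm_num, Real.rpow_natCast]
    field_simp
  have h4 : Real.log t ^ m ≤ (1 + Real.log t) ^ m := pow_le_pow_left₀ hl (by linarith) m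
  have hp : 0 < 1 + Real.log t := by linarith
  rw [abs_mul, abs_of_pos (Real.rpow_pos_of_pos ht0 _)]
  calc |EA a c t| * t ^ (-(2 + y)) * Real.log t ^ m
      ≤ (K * t / (1 + Real.log t) ^ (m + 2)) * (t⁻¹ * t⁻¹) * (1 + Real.log t) ^ m := by
        rw [← h3]
        gcongr
    _ = K * (t⁻¹ / (1 + Real.log t) ^ 2) := by
        rw [pow_add]
        field_simp

include hE in
theorem EA_int {y : ℝ} (hy : 0 ≤ y) (m : ℕ) :
    IntegrableOn (fun t : ℝ => EA a c t * t ^ (-(2 + y)) * Real.log t ^ m) (Set.Ioi 1) := by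
  obtain ⟨K, hK, h⟩ := EA_le hE m
  refine Integrable.mono' (base.const_mul K) ?_ ?_
  · exact (((EA_meas a c).mul (measurable_id.pow_const _)).mul
      (Real.measurable_log.pow_const m)).aestronglyMeasurable
  · refine (ae_restrict_iff' measurableSet_Ioi).2 (Eventually.of_forall fun t ht => ?_)
    have ht1 : (1 : ℝ) < t := ht
    have hl : 0 ≤ Real.log t := Real.log_nonneg ht1.le
    rw [Real.norm_eq_abs, abs_mul, abs_of_nonneg (pow_nonneg hl m)]
    exact h t ht1 y hy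

include hE in
theorem EE_IE : EE (IE a c) := by
  intro n
  obtain ⟨K, hK, hKn⟩ := EA_le hE n
  refine ⟨∑ j ∈ range n, Polynomial.monomial j
    (∫ t in Set.Ioi (1 : ℝ), EA a c t * t ^ (-(2 + (0 : ℝ))) * Real.log t ^ j * ((-1) ^ j / j.factorial)),
    ∫ t in Set.Ioi (1 : ℝ), K * (t⁻¹ / (1 + Real.log t) ^ 2) * (1 / n.factorial),
    fun x hx0 hx1 => ?_⟩
  rw [Polynomial.eval_finsetSum]
  simp only [Polynomial.eval_monomial]
  have h1 : IE a c x - ∑ j ∈ range n, (∫ t in Set.Ioi (1 : ℝ), EA a c t * t ^ (-(2 + (0 : ℝ))) *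
      Real.log t ^ j * ((-1) ^ j / j.factorial)) * x ^ j =
      ∫ t in Set.Ioi (1 : ℝ), EA a c t * t ^ (-(2 + (0 : ℝ))) * Pool.Agent.Y26.FK.rr n (x * Real.log t) := by
    unfold IE
    simp only [← integral_mul_const]
    rw [← integral_finsetSum, ← integral_sub]
    · refine setIntegral_congr_fun measurableSet_Ioi fun t ht => ?_
      have ht1 : (1 : ℝ) < t := ht
      have ht0 : 0 < t := by linarith
      unfold Pool.Agent.Y26.FK.rr
      have e1 : t ^ (-(2 + x)) = t ^ (-(2 + (0 : ℝ))) * Real.exp (-(x * Real.log t)) := by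
        rw [Real.rpow_def_of_pos ht0, Real.rpow_def_of_pos ht0, ← Real.exp_add]
        congr 1; ring
      rw [e1, mul_sub, mul_sum]
      congr 1
      · ring
      · refine sum_congr rfl fun j _ => ?_
        rw [neg_pow (x * Real.log t), mul_pow]; ring
    · have := EA_int hE hx0.le 0
      simp only [pow_zero, mul_one] at this
      exact this
    · refine integrable_finsetSum _ fun j _ => ?_
      exact ((EA_int hE le_rfl j).mul_const _).mul_const _
    · intro j _
      exact ((EA_int hE le_rfl j).mul_const _).mul_const _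
  rw [h1, ← integral_mul_const, ← Real.norm_eq_abs]
  refine norm_integral_le_of_norm_le ?_ ?_
  · exact ((base.const_mul K).mul_const _).mul_const _
  · refine (ae_restrict_iff' measurableSet_Ioi).2 (Eventually.of_forall fun t ht => ?_)
    have ht1 : (1 : ℝ) < t := ht
    have hl : 0 ≤ Real.log t := Real.log_nonneg ht1.le
    rw [norm_mul, Real.norm_eq_abs, Real.norm_eq_abs]
    have h2 := hKn t ht1 0 le_rfl
    have h3 := rr_abs n (mul_nonneg hx0.le hl)
    calc |EA a c t * t ^ (-(2 + (0 : ℝ)))| * |Pool.Agent.Y26.FK.rr n (x * Real.log t)| ≤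
        |EA a c t * t ^ (-(2 + (0 : ℝ)))| * ((x * Real.log t) ^ n / n.factorial) :=
          mul_le_mul_of_nonneg_left h3 (abs_nonneg _)
      _ = |EA a c t * t ^ (-(2 + (0 : ℝ)))| * Real.log t ^ n * (x ^ n / n.factorial) := by
          rw [mul_pow]; ring
      _ ≤ K * (t⁻¹ / (1 + Real.log t) ^ 2) * (x ^ n / n.factorial) :=
          mul_le_mul_of_nonneg_right h2 (by positivity)
      _ = _ := by ring

include hE in
theorem bigO : (fun n : ℕ ↦ ∑ k ∈ Icc 1 n, a k) =O[atTop] fun n ↦ (n : ℝ) ^ (1 : ℝ) := by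
  obtain ⟨K, hK, h⟩ := hE 0
  refine Asymptotics.IsBigO.of_bound (|c| + K) ?_
  filter_upwards [eventually_ge_atTop 1] with n hn
  have hn1 : (1 : ℝ) ≤ n := by exact_mod_cast hn
  have h1 := h n hn1
  have h2 : EA a c n = ∑ k ∈ Icc 1 n, a k - c * n := by
    unfold EA SA; rw [Nat.floor_natCast]
  rw [h2, pow_zero, div_one] at h1
  rw [Real.rpow_one, Real.norm_eq_abs, Real.norm_eq_abs, abs_of_nonneg (by linarith : (0:ℝ) ≤ n)]
  have h4 : |∑ k ∈ Icc 1 n, a k| ≤ |∑ k ∈ Icc 1 n, a k - c * n| + |c * n| := by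
    have := abs_add_le (∑ k ∈ Icc 1 n, a k - c * n) (c * n)
    rwa [sub_add_cancel] at this
  rw [abs_mul, abs_of_nonneg (by linarith : (0:ℝ) ≤ n)] at h4
  linarith

include ha hE in
theorem AC_a : AC a := by
  intro x hx
  have h1 := LSeriesSummable_of_sum_norm_bigO_and_nonneg (f := a) (r := 1) (s := ((1 + x : ℝ) : ℂ))
    (bigO hE) ha zero_le_one (by simpa using hx)
  have h2 := h1.norm
  refine h2.congr fun k => ?_
  rw [LSeries.norm_term_eq]
  by_cases hk : k = 0
  · simp [hk]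
  · rw [if_neg hk, if_neg hk, Complex.norm_real, Real.norm_eq_abs, Complex.ofReal_re,
      Real.rpow_neg (Nat.cast_nonneg k), div_eq_mul_inv]

include ha hE in
theorem DS_eq {x : ℝ} (hx : 0 < x) :
    DS a x = (1 + x) * ∫ t in Set.Ioi (1 : ℝ), SA a t * t ^ (-(2 + x)) := by
  have h1 := LSeries_eq_mul_integral_of_nonneg a (r := 1) zero_le_one (s := ((1 + x : ℝ) : ℂ))
    (by simpa using hx) (bigO hE) ha
  have h2 : LSeries (fun n ↦ (a n : ℂ)) ((1 + x : ℝ) : ℂ) = ((DS a x : ℝ) : ℂ) := by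
    unfold LSeries DS
    rw [Complex.ofReal_tsum]
    refine tsum_congr fun k => ?_
    rw [LSeries.term_def]
    by_cases hk : k = 0
    · simp [hk]
    · rw [if_neg hk, if_neg hk, Complex.ofReal_mul, Complex.ofReal_cpow (Nat.cast_nonneg k),
        Complex.ofReal_neg, Complex.cpow_neg, Complex.ofReal_natCast, div_eq_mul_inv]
  have h3 : ∫ t in Set.Ioi (1 : ℝ), (∑ k ∈ Icc 1 ⌊t⌋₊, (a k : ℂ)) *
      (t : ℂ) ^ (-(((1 + x : ℝ) : ℂ) + 1)) =
      ((∫ t in Set.Ioi (1 : ℝ), SA a t * t ^ (-(2 + x)) : ℝ) : ℂ) := by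
    rw [← integral_complex_ofReal]
    refine setIntegral_congr_fun measurableSet_Ioi fun t ht => ?_
    have ht0 : (0 : ℝ) ≤ t := by
      have : (1 : ℝ) < t := ht
      linarith
    rw [Complex.ofReal_mul, Complex.ofReal_cpow ht0]
    unfold SA
    rw [Complex.ofReal_sum]
    congr 2
    push_cast; ring
  rw [h2, h3] at h1
  have h4 : ((DS a x : ℝ) : ℂ) =
      (((1 + x) * ∫ t in Set.Ioi (1 : ℝ), SA a t * t ^ (-(2 + x)) : ℝ) : ℂ) := by
    rw [h1, Complex.ofReal_mul]
  exact_mod_cast h4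

include ha hE in
theorem DS_eq2 {x : ℝ} (hx : 0 < x) : DS a x = (1 + x) * (c + x * IE a c x) / x := by
  rw [DS_eq ha hE hx]
  have h1 : ∫ t in Set.Ioi (1 : ℝ), SA a t * t ^ (-(2 + x)) = c * (1 / x) + IE a c x := by
    unfold IE
    have h2 : ∫ t in Set.Ioi (1 : ℝ), t ^ (-(1 + x)) = 1 / x := by
      rw [integral_Ioi_rpow_of_lt (by linarith) one_pos, Real.one_rpow]
      have : -(1 + x) + 1 = -x := by ring
      rw [this, neg_div_neg_eq]
    rw [← h2, ← integral_const_mul, ← integral_add]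
    · refine setIntegral_congr_fun measurableSet_Ioi fun t ht => ?_
      have ht0 : (0 : ℝ) < t := by
        have : (1 : ℝ) < t := ht
        linarith
      have e : t ^ (-(1 + x)) = t * t ^ (-(2 + x)) := by
        nth_rewrite 2 [← Real.rpow_one t]
        rw [← Real.rpow_add ht0]
        congr 1; ring
      rw [e]
      unfold EA
      ring
    · exact (integrableOn_Ioi_rpow_of_lt (by linarith) one_pos).const_mul c
    · have := EA_int hE hx.le 0
      simp only [pow_zero, mul_one] at this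
      exact this
  rw [h1]
  field_simp

end

/-- HYPL: a saving of all powers of the logarithm gives an expansion. -/
def S_HYPL : Prop := ∀ (a : ℕ → ℝ) (c : ℝ), (∀ k, 0 ≤ a k) →
  (∀ A : ℕ, ∃ C : ℝ, ∀ X : ℝ, 2 ≤ X → |∑ k ∈ Ico 1 ⌈X⌉₊, a k - c * X| ≤ C * X / Real.log X ^ A) →
  AC a ∧ ∃ g : ℝ → ℝ, EE g ∧ ∀ x : ℝ, 0 < x → x < 1 → DS a x = g x / x

theorem t_HYPL : EEA → S_HYPL := by
  intro R a c ha h
  have hE : ∀ A : ℕ, ∃ K : ℝ, 0 ≤ K ∧ ∀ t : ℝ, 1 ≤ t → |EA a c t| ≤ K * t / (1 + Real.log t) ^ A := by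
    intro A
    obtain ⟨C, hC⟩ := h A
    refine ⟨2 * |C| * 4 ^ A + |c| * (A.factorial * Real.exp 1), by positivity, fun t ht => ?_⟩
    have ht0 : 0 < t := by linarith
    have hf1 := Nat.floor_le ht0.le
    have hf2 := Nat.lt_floor_add_one t
    have hf3 : 1 ≤ ⌊t⌋₊ := Nat.one_le_floor_iff t |>.2 ht
    have hX : (2 : ℝ) ≤ ((⌊t⌋₊ + 1 : ℕ) : ℝ) := by exact_mod_cast (by omega : 2 ≤ ⌊t⌋₊ + 1)
    have h1 := hC _ hX
    rw [Nat.ceil_natCast] at h1
    have e1 : Ico 1 (⌊t⌋₊ + 1) = Icc 1 ⌊t⌋₊ := by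
      ext k; simp only [mem_Ico, mem_Icc]; omega
    rw [e1] at h1
    set X : ℝ := ((⌊t⌋₊ + 1 : ℕ) : ℝ) with hXd
    have hXt : X ≤ t + 1 := by rw [hXd]; push_cast; linarith
    have htX : t < X := by rw [hXd]; push_cast; linarith
    have e2 : EA a c t = (∑ k ∈ Icc 1 ⌊t⌋₊, a k - c * X) + c * (X - t) := by
      unfold EA SA; ring
    have h2 : |c * (X - t)| ≤ |c| := by
      rw [abs_mul, abs_of_pos (by linarith : 0 < X - t)]
      exact mul_le_of_le_one_right (abs_nonneg _) (by linarith)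
    have hl : 0 ≤ Real.log t := Real.log_nonneg ht
    have hp : 0 < (1 + Real.log t) ^ A := by positivity
    have a1 : Real.log t ≤ Real.log X := Real.log_le_log ht0 htX.le
    have a2 : Real.log 2 ≤ Real.log X := Real.log_le_log (by norm_num) hX
    have a3 := Real.log_two_gt_d9
    have hlX : 1 + Real.log t ≤ 4 * Real.log X := by linarith
    have hlX0 : 0 < Real.log X := by linarith
    have q : 1 / Real.log X ^ A ≤ 4 ^ A / (1 + Real.log t) ^ A := by
      rw [div_le_div_iff₀ (by positivity) hp, one_mul, ← mul_pow]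
      exact pow_le_pow_left₀ (by linarith) hlX A
    have q2 : C * X / Real.log X ^ A ≤ 2 * |C| * 4 ^ A * t / (1 + Real.log t) ^ A := by
      calc C * X / Real.log X ^ A ≤ |C| * (2 * t) * (1 / Real.log X ^ A) := by
            rw [mul_one_div]
            gcongr
            · exact le_abs_self C
            · linarith
        _ ≤ |C| * (2 * t) * (4 ^ A / (1 + Real.log t) ^ A) := by gcongr
        _ = _ := by ring
    have q3 : |c| ≤ |c| * (A.factorial * Real.exp 1) * t / (1 + Real.log t) ^ A := by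
      rw [le_div_iff₀ hp, mul_assoc |c|]
      refine mul_le_mul_of_nonneg_left ?_ (abs_nonneg c)
      have r1 := Real.pow_div_factorial_le_exp (1 + Real.log t) (by linarith) A
      rw [Real.exp_add, Real.exp_log ht0, div_le_iff₀ (by positivity)] at r1
      linarith
    have h5 := abs_add_le (∑ k ∈ Icc 1 ⌊t⌋₊, a k - c * X) (c * (X - t))
    rw [← e2] at h5
    calc |EA a c t| ≤ 2 * |C| * 4 ^ A * t / (1 + Real.log t) ^ A +
          |c| * (A.factorial * Real.exp 1) * t / (1 + Real.log t) ^ A := by linarith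
      _ = _ := by ring
  refine ⟨AC_a ha hE, fun x => (1 + x) * (c + x * IE a c x), ?_, ?_⟩
  · exact R.mul _ _ (R.add _ _ (R.const 1) R.id)
      (R.add _ _ (R.const c) (R.mul _ _ R.id (EE_IE hE)))
  · intro x hx0 _
    exact DS_eq2 ha hE hx0

end

end Pool.Agent.Y755.FKL
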