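import Pool.Agent.Y755.FK.FinC
import Pool.Agent.Y755.FK.HYPL

/-! Final assembly for savings of powers of the logarithm (copy of the assembly in `FinB`, `FinC`). -/

set_option autoImplicit false
set_option linter.unusedVariables false

open Finset MeasureTheory Filter

open scoped Classical

namespace Pool.Agent.Y755.FKL

open Pool.Agent.Y755.FK

noncomputable section

theorem flatWL (hC : S_COMB) (hA : S_ACA) (hFac : S_FAC) (hALG : S_ALG) (hE : EEA) (hL : S_LAP)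
    (hLoc : S_LOC) (hHW : S_HW) (hT : S_TDEC) (hR : S_RD) (hR1 : S_RD1) (hZ : S_ZV) (hN : S_NV)
    (hH : S_HYPL) {F : ℤ → ℕ} (hF : HF F) (c : ℝ)
    (hs : ∀ A : ℕ, ∃ C : ℝ, ∀ X : ℝ, 2 ≤ X →
      |∑ k ∈ Ico 1 ⌈X⌉₊, (F (-(k : ℤ)) : ℝ) - c * X| ≤ C * X / Real.log X ^ A) :
    ∀ n : ℕ, ∃ C : ℝ, ∀ x : ℝ, 0 < x → x < 1 → |Wt x| ≤ C * x ^ n := by
  obtain ⟨V, hV, hVc, hVZ⟩ := hZ hE
  obtain ⟨N0, hN0, hNN⟩ := hN hE
  obtain ⟨-, g, hg, hgD⟩ := hH (fun k => (F (-(k : ℤ)) : ℝ)) c (fun k => Nat.cast_nonneg _) hs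
  have e4 := EE_pow hE (show (0 : ℝ) < 4 by norm_num)
  have e8 := EE_pow hE (show (0 : ℝ) < 8 by norm_num)
  have hW : EE Wt := by
    unfold Wt
    exact hE.add _ _ (hE.add _ _ (Wf_EE hE hL hLoc hA hHW hT 0)
      (hE.mul _ _ e4 (Wf_EE hE hL hLoc hA hHW hT 1))) (hE.mul _ _ e8 (Wf_EE hE hL hLoc hA hHW hT 2))
  have hM : EE (fun x => (Mf 0 + (4 : ℝ) ^ (-(1 + x)) * Mf 1 + (8 : ℝ) ^ (-(1 + x)) * Mf 2) * N0 x) :=
    hE.mul _ _ (hE.add _ _ (hE.add _ _ (hE.const _) (hE.mul _ _ e4 (hE.const _)))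
      (hE.mul _ _ e8 (hE.const _))) hN0
  have hRR : EE (fun x => x * (Rf 0 x + (4 : ℝ) ^ (-(1 + x)) * Rf 1 x +
      (8 : ℝ) ^ (-(1 + x)) * Rf 2 x)) :=
    hE.mul _ _ hE.id (hE.add _ _ (hE.add _ _ (Rf_EE hE hL hLoc hA hR hR1 0)
      (hE.mul _ _ e4 (Rf_EE hE hL hLoc hA hR hR1 1))) (hE.mul _ _ e8 (Rf_EE hE hL hLoc hA hR hR1 2)))
  have hG := EE_sub hE (EE_sub hE hg hM) hRR
  refine hE.flat V Wt _ hV hW hG hVc fun x hx hx1 => ?_
  have h1 := a_DS hC hA hFac hALG hF hx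
  rw [hgD x hx hx1, hVZ x hx hx1, hNN x hx hx1] at h1
  have hx0 : x ≠ 0 := hx.ne'
  have h2 : V x * Wt x / √x = V x / √x * Wf 0 x + (4 : ℝ) ^ (-(1 + x)) * (V x / √x * Wf 1 x) +
      (8 : ℝ) ^ (-(1 + x)) * (V x / √x * Wf 2 x) := by
    unfold Wt
    ring
  rw [h2]
  have h3 : (g x - (Mf 0 + (4 : ℝ) ^ (-(1 + x)) * Mf 1 + (8 : ℝ) ^ (-(1 + x)) * Mf 2) * N0 x -
      x * (Rf 0 x + (4 : ℝ) ^ (-(1 + x)) * Rf 1 x + (8 : ℝ) ^ (-(1 + x)) * Rf 2 x)) / x =
      g x / x - (Mf 0 + (4 : ℝ) ^ (-(1 + x)) * Mf 1 + (8 : ℝ) ^ (-(1 + x)) * Mf 2) * (N0 x / x) -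
      (Rf 0 x + (4 : ℝ) ^ (-(1 + x)) * Rf 1 x + (8 : ℝ) ^ (-(1 + x)) * Rf 2 x) := by
    field_simp
  rw [h3, h1]
  ring


theorem main_ofL (hC : S_COMB) (hA : S_ACA) (hFac : S_FAC) (hALG : S_ALG) (hE : EEA) (hL : S_LAP)
    (hLoc : S_LOC) (hHW : S_HW) (hT : S_TDEC) (hO : S_TOS) (hR : S_RD) (hR1 : S_RD1) (hZ : S_ZV)
    (hN : S_NV) (hH : S_HYPL) (hD : S_DET) {F : ℤ → ℕ} (hF : HF F) (c : ℝ) :
    ∃ A : ℕ, ∀ C : ℝ, ∃ X : ℝ, 2 ≤ X ∧
      C * X / Real.log X ^ A < |∑ k ∈ Ico 1 ⌈X⌉₊, (F (-(k : ℤ)) : ℝ) - c * X| := by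
  by_contra hcon
  push Not at hcon
  have hflat := flatWL hC hA hFac hALG hE hL hLoc hHW hT hR hR1 hZ hN hH hF c hcon
  have hmeas : Measurable ttot := by
    unfold ttot
    exact ((tfam_meas hA hL 0).add (((tfam_meas hA hL 1).comp
      (measurable_id.sub_const _)).const_mul _)).add (((tfam_meas hA hL 2).comp
      (measurable_id.sub_const _)).const_mul _)
  obtain ⟨M, hM⟩ : ∃ M : ℝ, 0 ≤ M ∧ ∀ i : Fin 3, ∀ v : ℝ, v ≤ 8 → |tfam i v| ≤ M := by
    obtain ⟨M0, h0⟩ := tfam_bdd 0 8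
    obtain ⟨M1, h1⟩ := tfam_bdd 1 8
    obtain ⟨M2, h2⟩ := tfam_bdd 2 8
    refine ⟨max 0 (max M0 (max M1 M2)), le_max_left _ _, fun i v hv => ?_⟩
    match i with
    | 0 => exact (h0 v hv).trans (by simp)
    | 1 => exact (h1 v hv).trans (by simp)
    | 2 => exact (h2 v hv).trans (by simp)
  have hb : ∀ u : ℝ, u ≤ 8 → |ttot u| ≤ 2 * M := by
    intro u hu
    have h4 : 0 ≤ Real.log 4 := Real.log_nonneg (by norm_num)
    have h8 : 0 ≤ Real.log 8 := Real.log_nonneg (by norm_num)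
    unfold ttot
    have a0 := abs_le.1 (hM.2 0 u hu)
    have a1 := abs_le.1 (hM.2 1 (u - Real.log 4) (by linarith))
    have a2 := abs_le.1 (hM.2 2 (u - Real.log 8) (by linarith))
    have := hM.1
    rw [abs_le]
    constructor <;> linarith
  have hos : ∃ c C : ℝ, 0 < c ∧ ∀ u : ℝ, 1 ≤ u → ttot u ≤ C * Real.exp (-(c * √u)) := by
    obtain ⟨a, B, ha, hB, hTOS⟩ := hO
    refine ⟨a / 2, 2 * B + 2 * M * Real.exp (a / 2 * √8), by positivity, fun u hu => ?_⟩
    by_cases hu8 : u ≤ 8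
    · have h1 := (le_abs_self _).trans (hb u hu8)
      have h2 : Real.exp (a / 2 * √u) ≤ Real.exp (a / 2 * √8) := by
        apply Real.exp_le_exp.2
        gcongr
      have h3 : 1 ≤ Real.exp (a / 2 * √8) * Real.exp (-(a / 2 * √u)) := by
        rw [← Real.exp_add]
        apply Real.one_le_exp
        have : √u ≤ √8 := Real.sqrt_le_sqrt hu8
        nlinarith
      have h4 : 0 ≤ 2 * B * Real.exp (-(a / 2 * √u)) := by positivity
      have h5 : 2 * M ≤ 2 * M * (Real.exp (a / 2 * √8) * Real.exp (-(a / 2 * √u))) := by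
        have := hM.1
        nlinarith
      nlinarith
    · push Not at hu8
      have key : ∀ b : ℝ, 0 ≤ b → b ≤ 3 → Real.exp (-(a * √(u - b))) ≤ Real.exp (-(a / 2 * √u)) := by
        intro b hb0 hb3
        apply Real.exp_le_exp.2
        have h1 : √u / 2 ≤ √(u - b) := by
          rw [show √u / 2 = √(u / 4) by
            rw [Real.sqrt_div (by linarith), show (4 : ℝ) = 2 ^ 2 by norm_num,
              Real.sqrt_sq (by norm_num)]]
          apply Real.sqrt_le_sqrt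
          linarith
        nlinarith
      have h0 := hTOS 0 u (by linarith)
      have l4 := log4_le
      have l8 := log8_le
      have n4 : 0 ≤ Real.log 4 := Real.log_nonneg (by norm_num)
      have n8 : 0 ≤ Real.log 8 := Real.log_nonneg (by norm_num)
      have h1 := hTOS 1 (u - Real.log 4) (by linarith)
      have h2 := hTOS 2 (u - Real.log 8) (by linarith)
      have k0 := key 0 le_rfl (by norm_num)
      rw [sub_zero] at k0
      have k1 := key _ n4 l4
      have k2 := key _ n8 l8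
      have m0 := mul_le_mul_of_nonneg_left k0 hB
      have m1 := mul_le_mul_of_nonneg_left k1 hB
      have m2 := mul_le_mul_of_nonneg_left k2 hB
      have h6 : 0 ≤ 2 * M * Real.exp (a / 2 * √8) * Real.exp (-(a / 2 * √u)) := by
        have := hM.1
        positivity
      have h7 : 0 ≤ B * Real.exp (-(a / 2 * √u)) := by positivity
      unfold ttot
      nlinarith
  have hdec : ∀ A : ℕ, ∃ C : ℝ, ∀ u : ℝ, 1 ≤ u → |ttot u| ≤ C / u ^ A := by
    intro A
    obtain ⟨C0, hC0, hd0⟩ := tfam_dec hT 0 A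
    obtain ⟨C1, hC1, hd1⟩ := tfam_dec hT 1 A
    obtain ⟨C2, hC2, hd2⟩ := tfam_dec hT 2 A
    refine ⟨(C0 + C1 + C2) * 4 ^ A + 2 * M * 8 ^ A, fun u hu => ?_⟩
    have hu0 : 0 < u := by linarith
    have hM0 := hM.1
    rw [le_div_iff₀ (by positivity)]
    by_cases hu8 : u ≤ 8
    · have h1 := hb u hu8
      have h2 : u ^ A ≤ 8 ^ A := pow_le_pow_left₀ hu0.le hu8 A
      calc |ttot u| * u ^ A ≤ 2 * M * 8 ^ A := by gcongr
        _ ≤ _ := by
          have : 0 ≤ (C0 + C1 + C2) * 4 ^ A := by positivity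
          linarith
    · push Not at hu8
      have l4 := log4_le
      have l8 := log8_le
      have n4 : 0 ≤ Real.log 4 := Real.log_nonneg (by norm_num)
      have n8 : 0 ≤ Real.log 8 := Real.log_nonneg (by norm_num)
      have key : ∀ (K b : ℝ) (t : ℝ), 0 ≤ K → 0 ≤ b → b ≤ 3 → |t| ≤ K / (u - b) ^ A →
          |t| * u ^ A ≤ K * 4 ^ A := by
        intro K b t hK hb0 hb3 ht
        have h1 : 0 < u - b := by linarith
        have h2 : u ≤ 4 * (u - b) := by linarith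
        have h3 : u ^ A ≤ 4 ^ A * (u - b) ^ A := by
          rw [← mul_pow]
          exact pow_le_pow_left₀ hu0.le h2 A
        calc |t| * u ^ A ≤ K / (u - b) ^ A * (4 ^ A * (u - b) ^ A) := by gcongr
          _ = K * 4 ^ A := by
            have : (u - b) ^ A ≠ 0 := by positivity
            field_simp
      have t0 := key C0 0 _ hC0 le_rfl (by norm_num) (by
        rw [sub_zero]
        exact hd0 u (by linarith))
      have t1 := key C1 _ _ hC1 n4 l4 (hd1 (u - Real.log 4) (by linarith))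
      have t2 := key C2 _ _ hC2 n8 l8 (hd2 (u - Real.log 8) (by linarith))
      have h5 : |ttot u| ≤ |tfam 0 u| + |tfam 1 (u - Real.log 4)| + |tfam 2 (u - Real.log 8)| := by
        unfold ttot
        have b1 := abs_nonneg (tfam 1 (u - Real.log 4))
        have b2 := abs_nonneg (tfam 2 (u - Real.log 8))
        calc |tfam 0 u + 1 / 4 * tfam 1 (u - Real.log 4) + 1 / 8 * tfam 2 (u - Real.log 8)|
            ≤ |tfam 0 u| + |1 / 4 * tfam 1 (u - Real.log 4)| + |1 / 8 * tfam 2 (u - Real.log 8)| :=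
              abs_add_three _ _ _
          _ = |tfam 0 u| + 1 / 4 * |tfam 1 (u - Real.log 4)| + 1 / 8 * |tfam 2 (u - Real.log 8)| := by
              rw [abs_mul, abs_mul]
              norm_num
          _ ≤ _ := by linarith
      have h6 : 0 < u ^ A := by positivity
      calc |ttot u| * u ^ A ≤ (|tfam 0 u| + |tfam 1 (u - Real.log 4)| +
            |tfam 2 (u - Real.log 8)|) * u ^ A := by gcongr
        _ ≤ (C0 + C1 + C2) * 4 ^ A := by nlinarith
        _ ≤ _ := by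
          have : 0 ≤ 2 * M * 8 ^ A := by positivity
          linarith
  have hfl2 : ∀ n : ℕ, ∃ C : ℝ, ∀ x : ℝ, 0 < x → x < 1 →
      |∫ u in Set.Ioi (0 : ℝ), ttot u * Real.exp (-(x * u))| ≤ C * x ^ n := by
    intro n
    obtain ⟨C', hC'⟩ := hflat n
    refine ⟨C', fun x hx hx1 => ?_⟩
    rw [ttot_int hA hL hHW hx, abs_mul]
    have h1 : |Pr x| ≤ 1 := by
      unfold Pr
      rw [← Real.norm_eq_abs]
      have := intervalIntegral.norm_integral_le_of_norm_le_const (a := (0 : ℝ)) (b := 1) (C := 1)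
        (f := fun v => (v * (1 - v)) ^ 2 * Real.exp (-x * v)) (fun v hv => by
          rw [Set.uIoc_of_le (by norm_num)] at hv
          rw [norm_mul, Real.norm_of_nonneg (by positivity), Real.norm_of_nonneg (by positivity)]
          have a1 : 0 ≤ v * (1 - v) := mul_nonneg hv.1.le (by linarith [hv.2])
          have a2 : v * (1 - v) ≤ 1 := by nlinarith [hv.1, hv.2]
          have a3 : Real.exp (-x * v) ≤ 1 := by
            rw [← Real.exp_zero]
            apply Real.exp_le_exp.2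
            nlinarith [hv.1]
          calc (v * (1 - v)) ^ 2 * Real.exp (-x * v) ≤ 1 * 1 := by
                gcongr
                exact pow_le_one₀ a1 a2
            _ = 1 := one_mul 1)
      simpa using this
    have h2 := hC' x hx hx1
    have h3 := abs_nonneg (Wt x)
    nlinarith
  have hzero := hD ttot hmeas hos hdec ⟨2 * M, fun u _ hu => hb u (by linarith)⟩ hfl2
  -- a point of `(0, 1)` with `ttot u = 0`
  have hne : ∀ u ∈ Set.Ioo (0 : ℝ) 1, ttot u ≠ 0 := by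
    intro u hu
    rw [ttot_small hu.1 hu.2]
    unfold φ
    rw [if_pos ⟨hu.1.le, hu.2.le⟩]
    have : 0 < u * (1 - u) := mul_pos hu.1 (by linarith [hu.2])
    have := pow_pos this 2
    linarith
  have h1 : volume.restrict (Set.Ioi (0 : ℝ)) {u | ¬ ttot u = 0} = 0 := hzero
  have h2 : volume.restrict (Set.Ioi (0 : ℝ)) (Set.Ioo (0 : ℝ) 1) = 0 :=
    measure_mono_null (fun u hu => hne u hu) h1
  rw [Measure.restrict_apply measurableSet_Ioo, Set.inter_eq_left.2 (fun u hu => hu.1)] at h2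
  rw [Real.volume_Ioo] at h2
  norm_num at h2


end

end Pool.Agent.Y755.FKL
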