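import Mathlib

/-!
# Project FK (helper755): no power saving for the average of `#2Cl(K)[4]` (problem 5d10af, S17099)

Definitions and the exact statements of the parts.
-/

set_option autoImplicit false
set_option linter.unusedVariables false

open Finset MeasureTheory Filter

open scoped Classical

namespace Pool.Agent.Y755.FK

noncomputable section

/-! ### Arithmetic definitions -/

/-- odd and squarefree -/
def osf (n : ℕ) : Prop := Odd n ∧ Squarefree n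

/-- the Jacobi symbol as a real number -/
def J (a : ℤ) (n : ℕ) : ℝ := (jacobiSym a n : ℝ)

/-- number of prime factors -/
def om (n : ℕ) : ℕ := n.primeFactors.card

/-- the radical -/
def rad (k : ℕ) : ℕ := ∏ p ∈ k.primeFactors, p

/-- the signs and the factors two -/
def KK : Finset ℤ := {1, -1, 2, -2}

/-- sum over the factorizations `n = a b` with the symbol `(a/b)` -/
def hh (e f : ℤ) (n : ℕ) : ℝ := ∑ a ∈ n.divisors, J e a * J f (n / a) * J a (n / a)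

/-- the same sum without the degenerate factorizations -/
def cc (e f : ℤ) (n : ℕ) : ℝ :=
  ∑ a ∈ n.divisors.filter (fun a => ¬ (a = 1 ∧ f = 1) ∧ ¬ (n / a = 1 ∧ e = 1)),
    J e a * J f (n / a) * J a (n / a)

/-- the fourfold sum -/
def g4 (e f e' f' : ℤ) (n : ℕ) : ℝ :=
  (1 / 2 : ℝ) ^ om n * ∑ m ∈ n.divisors, hh e f m * hh e' f' (n / m)

/-- local conditions -/
def Qc (β γ : ℤ) (b c : ℕ) : Prop :=
  (∀ p : ℕ, p.Prime → p ∣ c → jacobiSym (β * b) p = 1) ∧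
    ∀ p : ℕ, p.Prime → p ∣ b → jacobiSym (γ * c) p = 1

/-- number of solutions of the local conditions -/
def qn (β γ : ℤ) (n : ℕ) : ℕ := (n.divisors.filter fun b => Qc β γ b (n / b)).card

/-- the size of `2Cl[4]` in the three families `D = -n`, `D = -4 n`, `D = -8 n` (`n` odd) -/
def fv (i : Fin 3) (n : ℕ) : ℝ :=
  if i = 0 then (if n % 4 = 3 then (qn 1 1 n : ℝ) / 2 else 0)
  else if i = 1 then (if n % 4 = 1 then ((qn 1 1 n : ℝ) + qn 2 2 n) / 2 else 0)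
  else (qn 2 1 n : ℝ)

/-- the hypothesis on `F` in S17099 -/
def HF (F : ℤ → ℕ) : Prop := ∀ d : ℤ,
  (∀ (K : Type) [Field K] [NumberField K],
      Module.finrank ℚ K = 2 → NumberField.discr K = d →
        F d = Nat.card {y : ClassGroup (NumberField.RingOfIntegers K) //
          ∃ x : ClassGroup (NumberField.RingOfIntegers K), x ^ 4 = 1 ∧ x ^ 2 = y}) ∧
  ((¬ ∃ (K : Type) (_ : Field K) (_ : NumberField K),
      Module.finrank ℚ K = 2 ∧ NumberField.discr K = d) → F d = 0)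

/-- the index set of the terms -/
abbrev Ix := Bool × Bool × Bool × Bool

def ep (b : Bool) : ℤ := if b then -1 else 1
def tw (b : Bool) : ℤ := if b then 2 else 1
def sg (a b : Bool) : ℝ := if a ∧ b then -1 else 1

/-- coefficients of the terms (index `(α, β, γ, δ)`) -/
def co (i : Fin 3) (T : Ix) : ℝ :=
  if i = 0 then (if T.2.2.2 then 0 else 1 / 8 * sg T.1 T.2.1 * (ep T.2.2.1 : ℝ))
  else if i = 1 then 1 / 8 * sg T.1 T.2.1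
  else (if T.2.2.1 ∨ T.2.2.2 then 0 else 1 / 2 * sg T.1 T.2.1)

/-- the four characters of a term -/
def c1 (i : Fin 3) (T : Ix) : ℤ := if i = 2 then 1 else ep T.2.2.1
def c2 (i : Fin 3) (T : Ix) : ℤ :=
  if i = 0 then ep T.2.1 * ep T.2.2.1
  else if i = 1 then ep T.2.1 * ep T.2.2.1 * tw T.2.2.2 else 2 * ep T.2.1
def c3 (i : Fin 3) (T : Ix) : ℤ := if i = 2 then 1 else ep T.2.2.1
def c4 (i : Fin 3) (T : Ix) : ℤ :=
  if i = 0 then ep T.1 * ep T.2.2.1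
  else if i = 1 then ep T.1 * ep T.2.2.1 * tw T.2.2.2 else ep T.1

/-- number of trivial characters of a pair -/
def nt (e f : ℤ) : ℝ := (if e = 1 then 1 else 0) + (if f = 1 then 1 else 0)

/-- both characters of a pair are trivial -/
def bt (e f : ℤ) : ℝ := if e = 1 ∧ f = 1 then 1 else 0

/-! ### Class groups -/

/-- ALG: the coefficients. -/
def S_ALG : Prop := ∀ F : ℤ → ℕ, HF F → ∀ k : ℕ, 1 ≤ k → (F (-(k : ℤ)) : ℝ) =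
  (if osf k then fv 0 k else 0) + (if 4 ∣ k ∧ osf (k / 4) then fv 1 (k / 4) else 0) +
    (if 8 ∣ k ∧ osf (k / 8) then fv 2 (k / 8) else 0)

/-- ALG-DISC: imaginary quadratic fields. -/
def S_DISC : Prop :=
  (∀ (K : Type) [Field K] [NumberField K], Module.finrank ℚ K = 2 → ∀ n : ℕ, Squarefree n →
    (∃ s : K, s ^ 2 = -(n : K)) →
      NumberField.discr K = if n % 4 = 3 then -(n : ℤ) else -(4 * n : ℤ)) ∧
  (∀ (K : Type) [Field K] [NumberField K], Module.finrank ℚ K = 2 → NumberField.discr K < 0 →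
    ∃ n : ℕ, Squarefree n ∧ ∃ s : K, s ^ 2 = -(n : K)) ∧
  (∀ n : ℕ, Squarefree n → ∃ (K : Type) (_ : Field K) (_ : NumberField K),
    Module.finrank ℚ K = 2 ∧ ∃ s : K, s ^ 2 = -(n : K))

/-- the product of the ramified primes -/
def Rn (n : ℕ) : ℕ := if n % 4 = 1 then 2 * n else n

/-- ALG-AMB1: the ambiguous ideals and the classes of order two. -/
def S_AMB1 : Prop := ∀ (K : Type) [Field K] [NumberField K], Module.finrank ℚ K = 2 →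
  ∀ n : ℕ, Squarefree n → (∃ s : K, s ^ 2 = -(n : K)) →
  (∀ b : ℕ, b ∣ Rn n → ∃ I : nonZeroDivisors (Ideal (NumberField.RingOfIntegers K)),
    (I : Ideal (NumberField.RingOfIntegers K)) ^ 2 =
      Ideal.span {((b : ℕ) : NumberField.RingOfIntegers K)}) ∧
  ∀ c : ClassGroup (NumberField.RingOfIntegers K), c ^ 2 = 1 → ∃ b : ℕ, b ∣ Rn n ∧
    ∃ I : nonZeroDivisors (Ideal (NumberField.RingOfIntegers K)),
      (I : Ideal (NumberField.RingOfIntegers K)) ^ 2 =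
        Ideal.span {((b : ℕ) : NumberField.RingOfIntegers K)} ∧ ClassGroup.mk0 I = c

/-- ALG-AMB: ambiguous classes. -/
def S_AMB : Prop := ∀ (K : Type) [Field K] [NumberField K], Module.finrank ℚ K = 2 →
  ∀ n : ℕ, Squarefree n → (∃ s : K, s ^ 2 = -(n : K)) →
  ∀ c : ClassGroup (NumberField.RingOfIntegers K), c ^ 2 = 1 →
    ((Rn n).divisors.filter fun b =>
      ∃ I : nonZeroDivisors (Ideal (NumberField.RingOfIntegers K)),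
        (I : Ideal (NumberField.RingOfIntegers K)) ^ 2 =
            Ideal.span {((b : ℕ) : NumberField.RingOfIntegers K)} ∧
          ClassGroup.mk0 I = c).card = 2

/-- ALG-SQ: an ambiguous class is a square if and only if the norm of its ideal is a norm. -/
def S_SQ : Prop := ∀ (K : Type) [Field K] [NumberField K], Module.finrank ℚ K = 2 →
  ∀ n : ℕ, Squarefree n → (∃ s : K, s ^ 2 = -(n : K)) → ∀ b : ℕ, 1 ≤ b →
  ∀ I : nonZeroDivisors (Ideal (NumberField.RingOfIntegers K)),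
    (I : Ideal (NumberField.RingOfIntegers K)) ^ 2 =
      Ideal.span {((b : ℕ) : NumberField.RingOfIntegers K)} →
    ((∃ x : ClassGroup (NumberField.RingOfIntegers K), x ^ 2 = ClassGroup.mk0 I) ↔
      ∃ u v : ℚ, (b : ℚ) = u ^ 2 + n * v ^ 2)

/-- ALG-LEG: Legendre's theorem. -/
def S_LEG : Prop :=
  (∀ b c : ℕ, Squarefree (b * c) → ((∃ u v : ℚ, (b : ℚ) = u ^ 2 + (b * c : ℕ) * v ^ 2) ↔
    (∀ p : ℕ, p.Prime → p ≠ 2 → p ∣ c → jacobiSym b p = 1) ∧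
      ∀ p : ℕ, p.Prime → p ≠ 2 → p ∣ b → jacobiSym c p = 1)) ∧
  (∀ b c : ℕ, Squarefree (b * c) → Odd (b * c) →
    ((∃ u v : ℚ, ((2 * b : ℕ) : ℚ) = u ^ 2 + (b * c : ℕ) * v ^ 2) ↔
    (∀ p : ℕ, p.Prime → p ∣ c → jacobiSym (2 * b) p = 1) ∧
      ∀ p : ℕ, p.Prime → p ∣ b → jacobiSym (2 * c) p = 1))

/-- COMB: expansion of the coefficients. -/
def S_COMB : Prop := ∀ (i : Fin 3) (n : ℕ), osf n →
  ∑ T : Ix, co i T * g4 (c1 i T) (c2 i T) (c3 i T) (c4 i T) n = fv i n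

/-- the coefficient of a character in the singular part -/
def Kc (i : Fin 3) (κ : ℤ) (d : ℕ) : ℝ := ∑ T : Ix, co i T *
  (nt (c1 i T) (c2 i T) * ((if c4 i T = κ then J (c3 i T) d else 0) +
      (if c3 i T * jacobiSym (-1) d = κ then J (c4 i T) d else 0)) +
    nt (c3 i T) (c4 i T) * ((if c2 i T = κ then J (c1 i T) d else 0) +
      (if c1 i T * jacobiSym (-1) d = κ then J (c2 i T) d else 0)))

/-- KPOS: the coefficients are not negative. -/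
def S_KPOS : Prop := ∀ (i : Fin 3) (κ : ℤ) (d : ℕ), κ ∈ KK → Odd d → 0 ≤ Kc i κ d

/-! ### Local sums -/

/-- the weight -/
def φ (v : ℝ) : ℝ := if 0 ≤ v ∧ v ≤ 1 then (v * (1 - v)) ^ 2 else 0

/-- the Laplace transform of the weight -/
def Ph (w : ℂ) : ℂ := ∫ v in (0 : ℝ)..1, (((v * (1 - v)) ^ 2 : ℝ) : ℂ) * Complex.exp (-w * v)

/-- the same for real arguments -/
def Pr (x : ℝ) : ℝ := ∫ v in (0 : ℝ)..1, (v * (1 - v)) ^ 2 * Real.exp (-x * v)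

/-- local sum with complex coefficients -/
def LS (c : ℕ → ℂ) (u : ℝ) : ℂ :=
  ∑ k ∈ Icc 1 ⌊Real.exp u⌋₊, c k / k * ((φ (u - Real.log k) : ℝ) : ℂ)

/-- local sum with real coefficients -/
def LR (c : ℕ → ℝ) (u : ℝ) : ℝ := ∑ k ∈ Icc 1 ⌊Real.exp u⌋₊, c k / k * φ (u - Real.log k)

/-- Dirichlet series at `1 + x` -/
def DS (c : ℕ → ℝ) (x : ℝ) : ℝ := ∑' k : ℕ, if k = 0 then 0 else c k * (k : ℝ) ^ (-(1 + x))

/-- absolute convergence for `x > 0` -/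
def AC (c : ℕ → ℝ) : Prop :=
  ∀ x : ℝ, 0 < x → Summable fun k : ℕ => if k = 0 then 0 else |c k| * (k : ℝ) ^ (-(1 + x))

/-- asymptotic expansion in integral powers at `0` -/
def EE (f : ℝ → ℝ) : Prop := ∀ n : ℕ, ∃ (p : Polynomial ℝ) (C : ℝ), ∀ x : ℝ, 0 < x → x < 1 →
  |f x - p.eval x| ≤ C * x ^ n

/-- PHB: the transform of the weight. -/
def S_PHB : Prop := (∃ C : ℝ, ∀ w : ℂ, -1 ≤ w.re → w.re ≤ 1 → ‖Ph w‖ ≤ C / (1 + ‖w‖ ^ 2)) ∧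
  Differentiable ℂ Ph ∧ (∀ x : ℝ, Ph x = (Pr x : ℂ)) ∧ ∀ x : ℝ, 0 < Pr x

/-- INV: Fourier inversion for local sums. -/
def S_INV : Prop := ∀ (c : ℕ → ℂ) (u σ : ℝ), 0 < σ → σ ≤ 1 →
  (∀ s : ℂ, 1 < s.re → LSeriesSummable c s) →
  LS c u = (1 / (2 * Real.pi) : ℂ) * ∫ τ : ℝ, Ph (σ + τ * Complex.I) *
    LSeries c (1 + σ + τ * Complex.I) * Complex.exp (u * (σ + τ * Complex.I))

/-- CT: shift of the contour. -/
def S_CT : Prop := ∃ C : ℝ, 0 ≤ C ∧ ∀ (c : ℕ → ℂ) (G : ℂ → ℂ) (u η T B : ℝ), 1 ≤ u → 0 < η →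
  η ≤ 1 / 4 → 1 ≤ T → 0 ≤ B → (∀ s : ℂ, 1 < s.re → LSeriesSummable c s) →
  (∀ s : ℂ, s.re = 1 + 1 / u → ‖LSeries c s‖ ≤ B) →
  (∀ s : ℂ, 1 - η ≤ s.re → s.re ≤ 2 → |s.im| ≤ T → DifferentiableAt ℂ G s ∧ ‖G s‖ ≤ B) →
  (∀ s : ℂ, 1 < s.re → s.re ≤ 2 → |s.im| ≤ T → G s = LSeries c s) →
  ‖LS c u‖ ≤ C * B * (Real.exp (-(η * u)) + 1 / T)

/-- CK: shift of the contour around a branch point; only a bound from above. -/
def S_CK : Prop := ∃ C : ℝ, 0 ≤ C ∧ ∀ (c : ℕ → ℂ) (G : ℂ → ℂ) (u η T B β : ℝ), 1 ≤ u → 0 < η →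
  η ≤ 1 / 4 → 1 ≤ T → 0 ≤ B → 1 - η ≤ β → β < 1 → (∀ s : ℂ, 1 < s.re → LSeriesSummable c s) →
  (∀ s : ℂ, s.re = 1 + 1 / u → ‖LSeries c s‖ ≤ B) →
  (∀ s : ℂ, 1 - η ≤ s.re → s.re ≤ 2 → |s.im| ≤ T → DifferentiableAt ℂ G s ∧ ‖G s‖ ≤ B) →
  (∀ x : ℝ, 1 - η ≤ x → x ≤ β → ∃ r : ℝ, 0 ≤ r ∧ G x = r) →
  (∀ s : ℂ, 1 < s.re → s.re ≤ 2 → |s.im| ≤ T →
    LSeries c s = (s - β) ^ ((1 / 2 : ℝ) : ℂ) * G s) →
  (LS c u).re ≤ C * B * (Real.exp (-(η * u)) + 1 / T)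

/-- SQR: square roots on open rectangles. -/
def S_SQR : Prop := ∀ (L : ℂ → ℂ) (a b T : ℝ), a < b → 0 < T →
  (∀ s : ℂ, a < s.re → s.re < b → |s.im| < T → DifferentiableAt ℂ L s ∧ L s ≠ 0) →
  ∃ K : ℂ → ℂ, ∀ s : ℂ, a < s.re → s.re < b → |s.im| < T → DifferentiableAt ℂ K s ∧
    K s ^ 2 = L s

/-! ### Characters and L-functions -/

/-- `χ` is the character `n ↦ (D/n)` on odd numbers -/
def IsChi (D : ℤ) (q : ℕ) (χ : DirichletCharacter ℂ q) : Prop :=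
  (∀ n : ℕ, Odd n → χ (n : ZMod q) = (J D n : ℂ)) ∧ ∀ n : ℕ, Even n → χ (n : ZMod q) = 0

/-- CHAR: existence of the characters. -/
def S_CHAR : Prop := ∀ D : ℤ, Squarefree D → D ≠ 1 → ∃ (q : ℕ) (_ : NeZero q)
  (χ : DirichletCharacter ℂ q), (q : ℝ) ≤ 4 * |(D : ℝ)| ∧ IsChi D q χ ∧ χ ^ 2 = 1 ∧ χ ≠ 1

/-- LD: real part of the logarithmic derivative to the right of `Re s = 1`. -/
def S_LD : Prop := ∃ C : ℝ, 0 ≤ C ∧
  (∀ (q : ℕ) [NeZero q] (χ : DirichletCharacter ℂ q), χ ≠ 1 →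
    ∀ s : ℂ, 1 < s.re → s.re ≤ 3 / 2 →
      (-(deriv (DirichletCharacter.LFunction χ) s / DirichletCharacter.LFunction χ s).re ≤
        C * Real.log (q * (|s.im| + 3))) ∧
      (∀ ρ : ℂ, DirichletCharacter.LFunction χ ρ = 0 → ‖s - ρ‖ ≤ 1 / 8 →
        -(deriv (DirichletCharacter.LFunction χ) s / DirichletCharacter.LFunction χ s).re ≤
        C * Real.log (q * (|s.im| + 3)) - (1 / (s - ρ)).re) ∧
      (∀ ρ ρ' : ℂ, DirichletCharacter.LFunction χ ρ = 0 → DirichletCharacter.LFunction χ ρ' = 0 →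
        ‖s - ρ‖ ≤ 1 / 8 → ‖s - ρ'‖ ≤ 1 / 8 →
        (ρ ≠ ρ' ∨ deriv (DirichletCharacter.LFunction χ) ρ = 0) →
        -(deriv (DirichletCharacter.LFunction χ) s / DirichletCharacter.LFunction χ s).re ≤
        C * Real.log (q * (|s.im| + 3)) - (1 / (s - ρ)).re - (1 / (s - ρ')).re)) ∧
  ∀ (q : ℕ) [NeZero q] (s : ℂ), 1 < s.re → s.re ≤ 3 / 2 →
    -(deriv (DirichletCharacter.LFunction (1 : DirichletCharacter ℂ q)) s /
      DirichletCharacter.LFunction (1 : DirichletCharacter ℂ q) s).re ≤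
      (1 / (s - 1)).re + C * Real.log (q * (|s.im| + 3))

/-- ZFR: the classical zero-free region, real characters. -/
def S_ZFR : Prop := ∃ c : ℝ, 0 < c ∧ ∀ (q : ℕ) [NeZero q] (χ : DirichletCharacter ℂ q),
  χ ^ 2 = 1 → χ ≠ 1 → ∀ T : ℝ, 2 ≤ T → ∃ β : ℝ, β < 1 ∧ ∀ s : ℂ,
    1 - c / Real.log (q * T) ≤ s.re → |s.im| ≤ T → DirichletCharacter.LFunction χ s = 0 →
      s = β ∧ deriv (DirichletCharacter.LFunction χ) s ≠ 0

/-- LUP: upper bound near the line `Re s = 1`. -/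
def S_LUP : Prop := ∃ C : ℝ, ∀ (q : ℕ) [NeZero q] (χ : DirichletCharacter ℂ q), χ ≠ 1 →
  ∀ s : ℂ, 1 / 2 ≤ s.re → s.re ≤ 3 → ‖DirichletCharacter.LFunction χ s‖ ≤
    C * Real.log (q * (|s.im| + 3)) * ((q : ℝ) * (|s.im| + 3)) ^ (max 0 (1 - s.re))

/-- SIEG: zero-free region from Siegel's theorem for small moduli. -/
def S_SIEG : Prop := ∀ A : ℕ, ∃ (c u0 : ℝ), 0 < c ∧ 1 ≤ u0 ∧ ∀ u : ℝ, u0 ≤ u →
  ∀ (q : ℕ) [NeZero q] (χ : DirichletCharacter ℂ q), χ ^ 2 = 1 → χ ≠ 1 → (q : ℝ) ≤ u ^ A →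
  ∀ s : ℂ, 1 - c * u ^ (-(9 / 10) : ℝ) ≤ s.re → |s.im| ≤ Real.exp (u ^ (1 / 20 : ℝ) / 2) →
    DirichletCharacter.LFunction χ s ≠ 0

/-! ### The coefficient functions -/

/-- coefficients of `∏ (1 + ... / (2 p^s + 1))` -/
def gk (k : ℕ) : ℝ := if Odd k then
  (1 / 2 : ℝ) ^ om k * (-1 / 2 : ℝ) ^ (k.primeFactorsList.length - om k) else 0

/-- the same with a character -/
def gD (D : ℤ) (k : ℕ) : ℝ := gk k * J D (rad k)

/-- the factor of `d` -/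
def ff (s : ℂ) (n : ℕ) : ℂ := ∏ p ∈ n.primeFactors, (2 * (p : ℂ) ^ s + 1)⁻¹

/-- the factor of `n` at `1 + x` -/
def fr (x : ℝ) (n : ℕ) : ℝ := ∏ p ∈ n.primeFactors, (2 * (p : ℝ) ^ (1 + x) + 1)⁻¹

/-- coefficients of `ff s d * ∏ (1 + (D/p) / (2 p^s + 1))` -/
def taC (d : ℕ) (D : ℤ) (k : ℕ) : ℝ :=
  ∑ a ∈ k.divisors.filter (fun a => rad a = d), gk a * gk (k / a) * J D (rad (k / a))

/-- the local sum of a character -/
def ta (d : ℕ) (D : ℤ) (u : ℝ) : ℝ := LR (taC d D) u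

/-- the local weight of `n` -/
def Ps (n : ℕ) (u : ℝ) : ℝ := LR (fun k => if rad k = n then gk k else 0) u

/-- coefficients of `HH e f` -/
def we (e f : ℤ) (k : ℕ) : ℝ := gk k * cc e f (rad k) - (if k = 1 then bt e f else 0)

/-- the local sum of `HH e f` -/
def tt (e f : ℤ) (u : ℝ) : ℝ := LR (we e f) u

/-- `± y ≡ 1 mod 4` -/
def st (y : ℕ) : ℤ := jacobiSym (-1) y * y

/-- single character coefficients -/
def cs1 (D : ℤ) (n k : ℕ) : ℝ :=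
  if osf k ∧ Nat.Coprime k n then (1 / 2 : ℝ) ^ om k * J D k else 0

/-- two character coefficients -/
def cs2 (D D' : ℤ) (n k : ℕ) : ℝ :=
  if osf k ∧ Nat.Coprime k n then
    (1 / 2 : ℝ) ^ om k * ∑ a ∈ k.divisors, J D a * J D' (k / a) else 0

/-- EP: convergent Euler products. -/
def S_EP : Prop := ∀ M : ℝ, ∃ C : ℝ, ∀ v : ℕ → ℂ → ℂ,
  (∀ p : ℕ, p.Prime → ∀ s : ℂ, 3 / 4 < s.re → DifferentiableAt ℂ (v p) s ∧
    ‖v p s‖ ≤ M * (p : ℝ) ^ (-(3 / 2) : ℝ) ∧ 1 + v p s ≠ 0) →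
  ∀ s : ℂ, 3 / 4 < s.re → (Multipliable fun p : Nat.Primes => 1 + v p s) ∧
    DifferentiableAt ℂ (fun z => ∏' p : Nat.Primes, (1 + v p z)) s ∧
    (∏' p : Nat.Primes, (1 + v p s)) ≠ 0 ∧ ‖∏' p : Nat.Primes, (1 + v p s)‖ ≤ C

/-- EW: the Euler product with `2 p^s + 1`. -/
def S_EW : Prop := ∃ C : ℝ, ∀ D : ℤ, D ≠ 0 → ∃ E : ℂ → ℂ,
  (∀ s : ℂ, 3 / 4 < s.re → DifferentiableAt ℂ E s ∧ E s ≠ 0 ∧ ‖E s‖ ≤ C) ∧
  (∀ x : ℝ, 3 / 4 < x → ∃ r : ℝ, 0 < r ∧ E x = r) ∧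
  ∀ (q : ℕ) [NeZero q] (χ : DirichletCharacter ℂ q), IsChi D q χ → ∀ s : ℂ, 1 < s.re →
    LSeriesSummable (fun k => (gD D k : ℂ)) s ∧
    LSeries (fun k => (gD D k : ℂ)) s ^ 2 = DirichletCharacter.LFunction χ s * E s

/-- TAC: the factor of `d`. -/
def S_TAC : Prop := ∀ (d : ℕ) (κ : ℤ), osf d → κ ∈ KK → ∀ s : ℂ, 1 < s.re →
  LSeriesSummable (fun k => (taC d (κ * d) k : ℂ)) s ∧
  LSeries (fun k => (taC d (κ * d) k : ℂ)) s = ff s d * LSeries (fun k => (gD (κ * d) k : ℂ)) s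

/-- ER1: the Euler product with one character. -/
def S_ER1 : Prop := ∃ C : ℝ, ∀ (D : ℤ) (n : ℕ), D ≠ 0 → 1 ≤ n → ∃ E : ℂ → ℂ,
  (∀ s : ℂ, 3 / 4 < s.re → DifferentiableAt ℂ E s ∧ E s ≠ 0 ∧ ‖E s‖ ≤ C * 4 ^ om n) ∧
  ∀ (q : ℕ) [NeZero q] (χ : DirichletCharacter ℂ q), IsChi D q χ → ∀ s : ℂ, 1 < s.re →
    LSeriesSummable (fun k => (cs1 D n k : ℂ)) s ∧
    LSeries (fun k => (cs1 D n k : ℂ)) s ^ 2 = DirichletCharacter.LFunction χ s * E s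

/-- ER2: the Euler product with two characters. -/
def S_ER2 : Prop := ∃ C : ℝ, ∀ (D D' : ℤ) (n : ℕ), D ≠ 0 → D' ≠ 0 → 1 ≤ n → ∃ E : ℂ → ℂ,
  (∀ s : ℂ, 3 / 4 < s.re → DifferentiableAt ℂ E s ∧ E s ≠ 0 ∧ ‖E s‖ ≤ C * 4 ^ om n) ∧
  ∀ (q q' : ℕ) [NeZero q] [NeZero q'] (χ : DirichletCharacter ℂ q)
    (χ' : DirichletCharacter ℂ q'), IsChi D q χ → IsChi D' q' χ' → ∀ s : ℂ, 1 < s.re →
    LSeriesSummable (fun k => (cs2 D D' n k : ℂ)) s ∧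
    LSeries (fun k => (cs2 D D' n k : ℂ)) s ^ 2 =
      DirichletCharacter.LFunction χ s * DirichletCharacter.LFunction χ' s * E s

/-- SW: local sums with small moduli. -/
def S_SW : Prop := ∀ A : ℕ, ∃ C : ℝ, ∀ (u : ℝ) (n : ℕ) (D D' : ℤ), 1 ≤ u → 1 ≤ n →
  Squarefree D → Squarefree D' → D ≠ 1 → D' ≠ 1 → |(D : ℝ)| ≤ u ^ A → |(D' : ℝ)| ≤ u ^ A →
  |LR (cs1 D n) u| ≤ C * 2 ^ om n / u ^ A ∧ |LR (cs2 D D' n) u| ≤ C * 2 ^ om n / u ^ A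

/-- TAU: the local sums of a character with small modulus. -/
def S_TAU : Prop := ∀ A : ℕ, ∃ C : ℝ, ∀ (u : ℝ) (d : ℕ) (κ : ℤ), 1 ≤ u → osf d → κ ∈ KK →
  ¬ (d = 1 ∧ κ = 1) → (d : ℝ) ≤ u ^ A → |ta d (κ * d) u| ≤ C / u ^ A

/-- OS: one-sided bound, large moduli. -/
def S_OS : Prop := ∃ c C : ℝ, 0 < c ∧ 0 ≤ C ∧ ∀ (u : ℝ) (d : ℕ) (κ : ℤ), 1 ≤ u → osf d →
  κ ∈ KK → ¬ (d = 1 ∧ κ = 1) → (d : ℝ) ≤ Real.exp (√u) →
  ta d (κ * d) u ≤ C * Real.exp (-(c * √u))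

/-! ### Bilinear sums -/

/-- BIL: bilinear sums of Jacobi symbols. -/
def S_BIL : Prop := ∃ (C : ℝ) (K : ℕ), 0 ≤ C ∧ ∀ (X Y : ℕ) (α β : ℕ → ℂ), 1 ≤ X → 1 ≤ Y →
  (∀ n, ‖α n‖ ≤ 1) → (∀ n, ‖β n‖ ≤ 1) →
  ‖∑ x ∈ (Ioc X (2 * X)).filter osf, ∑ y ∈ (Ioc Y (2 * Y)).filter osf,
      α x * β y * (J x y : ℂ)‖ ≤
    C * (X * Y) * (1 + Real.log (X * Y)) ^ K * ((min X Y : ℕ) : ℝ) ^ (-(1 / 8) : ℝ)

/-- SEP: the same with the weight. -/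
def S_SEP : Prop := ∃ (C : ℝ) (K : ℕ), 0 ≤ C ∧ ∀ (X Y : ℕ) (α β : ℕ → ℂ) (u : ℝ), 1 ≤ X → 1 ≤ Y →
  (∀ n, ‖α n‖ ≤ 1) → (∀ n, ‖β n‖ ≤ 1) →
  ‖∑ x ∈ (Ioc X (2 * X)).filter osf, ∑ y ∈ (Ioc Y (2 * Y)).filter osf,
      α x * β y * (J x y : ℂ) * ((φ (u - Real.log x - Real.log y) : ℝ) : ℂ)‖ ≤
    C * (X * Y) * (1 + Real.log (X * Y)) ^ K * ((min X Y : ℕ) : ℝ) ^ (-(1 / 8) : ℝ)

/-- PSI: integral representation of the local weight. -/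
def S_PSI : Prop := ∀ (n : ℕ) (u : ℝ), osf n → (Ps n u : ℂ) =
  (1 / (2 * Real.pi) : ℂ) * ∫ τ : ℝ, Ph (τ * Complex.I) *
    ff (1 + τ * Complex.I) n * Complex.exp (u * (τ * Complex.I))

/-- GB: the part with both variables large. -/
def S_GB : Prop := ∃ (C : ℝ) (K : ℕ), 0 ≤ C ∧ ∀ (u : ℝ) (z : ℕ) (e f : ℤ), 1 ≤ u → 1 ≤ z →
  e ∈ KK → f ∈ KK →
  |∑ x ∈ (Ioc z ⌊Real.exp u⌋₊).filter osf, ∑ y ∈ (Ioc z ⌊Real.exp u⌋₊).filter osf,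
      J e x * J f y * J x y * Ps (x * y) u| ≤ C * (1 + u) ^ K * (z : ℝ) ^ (-(1 / 8) : ℝ)

/-- GRP: decomposition of the local sum. -/
def S_GRP : Prop := ∃ (C : ℝ) (K : ℕ), 0 ≤ C ∧ ∀ (u : ℝ) (z : ℕ) (e f : ℤ), 1 ≤ u → 1 ≤ z →
  (z : ℝ) ≤ Real.exp (u / 8) → e ∈ KK → f ∈ KK →
  |tt e f u - ∑ x ∈ (Icc 1 z).filter (fun x => osf x ∧ ¬ (x = 1 ∧ f = 1)),
        J e x * ta x (f * x) u -
      ∑ y ∈ (Icc 1 z).filter (fun y => osf y ∧ ¬ (y = 1 ∧ e = 1)),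
        J f y * ta y (e * jacobiSym (-1) y * y) u| ≤ C * (1 + u) ^ K * (z : ℝ) ^ (-(1 / 8) : ℝ)

/-- TDEC: the local sums decay. -/
def S_TDEC : Prop := ∀ (e f : ℤ) (A : ℕ), e ∈ KK → f ∈ KK → ∃ C : ℝ, ∀ u : ℝ, 1 ≤ u →
  |tt e f u| ≤ C / u ^ A

/-- the local sum of a family -/
def tfam (i : Fin 3) (u : ℝ) : ℝ := ∑ T : Ix, co i T *
  (nt (c1 i T) (c2 i T) * tt (c3 i T) (c4 i T) u + nt (c3 i T) (c4 i T) * tt (c1 i T) (c2 i T) u)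

/-- TOS: one-sided bound for the families. -/
def S_TOS : Prop := ∃ c C : ℝ, 0 < c ∧ 0 ≤ C ∧ ∀ (i : Fin 3) (u : ℝ), 1 ≤ u →
  tfam i u ≤ C * Real.exp (-(c * √u))

/-- coefficients of the smooth part -/
def rr (e f e' f' : ℤ) (k : ℕ) : ℝ :=
  if osf k then (1 / 2 : ℝ) ^ om k * ∑ m ∈ k.divisors, cc e f m * cc e' f' (k / m) else 0

/-- the same for one pair -/
def r1 (e f : ℤ) (k : ℕ) : ℝ := if osf k then (1 / 2 : ℝ) ^ om k * cc e f k else 0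

/-- RD: local sums of the smooth part. -/
def S_RD : Prop := ∀ (e f e' f' : ℤ) (A : ℕ), e ∈ KK → f ∈ KK → e' ∈ KK → f' ∈ KK →
  ∃ C : ℝ, ∀ u : ℝ, 1 ≤ u → |LR (rr e f e' f') u| ≤ C / u ^ A

/-- RD1: local sums for one pair. -/
def S_RD1 : Prop := ∀ (e f : ℤ) (A : ℕ), e ∈ KK → f ∈ KK →
  ∃ C : ℝ, ∀ u : ℝ, 1 ≤ u → |LR (r1 e f) u| ≤ C / u ^ A

/-! ### Dirichlet series on the real axis -/

/-- the fourfold series -/
def AT (e f e' f' : ℤ) (x : ℝ) : ℝ := DS (fun k => if osf k then g4 e f e' f' k else 0) x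

/-- counting series -/
def NN (x : ℝ) : ℝ := DS (fun k => if osf k then 1 else 0) x

/-- the singular series -/
def ZZ (x : ℝ) : ℝ := DS (fun k => if osf k then (1 / 2 : ℝ) ^ om k else 0) x

/-- the series of a pair -/
def HH (e f : ℤ) (x : ℝ) : ℝ := (∑' n : ℕ, if osf n then cc e f n * fr x n else 0) - bt e f

/-- ACA: absolute convergence. -/
def S_ACA : Prop := ∀ e f e' f' : ℤ, e ∈ KK → f ∈ KK → e' ∈ KK → f' ∈ KK →
  AC (fun k => if osf k then g4 e f e' f' k else 0) ∧ AC (rr e f e' f') ∧ AC (r1 e f) ∧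
  AC (we e f) ∧ AC (fun k => if osf k then 1 else 0) ∧
  AC (fun k => if osf k then (1 / 2 : ℝ) ^ om k else 0) ∧
  ∀ x : ℝ, 0 < x → Summable fun n : ℕ => if osf n then |cc e f n| * fr x n else 0

/-- FAC: the decomposition. -/
def S_FAC : Prop := ∀ e f e' f' : ℤ, e ∈ KK → f ∈ KK → e' ∈ KK → f' ∈ KK → ∀ x : ℝ, 0 < x →
  AT e f e' f' x = nt e f * nt e' f' * NN x +
    ZZ x * (nt e f * HH e' f' x + nt e' f' * HH e f x) +
    (DS (rr e f e' f') x - bt e f * DS (r1 e' f') x - bt e' f' * DS (r1 e f) x +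
      bt e f * bt e' f')

/-- HW: the coefficients of `HH`. -/
def S_HW : Prop := ∀ e f : ℤ, e ∈ KK → f ∈ KK → ∀ x : ℝ, 0 < x → DS (we e f) x = HH e f x

/-- LAP: Laplace transform of local sums. -/
def S_LAP : Prop := ∀ c : ℕ → ℝ, AC c → (Measurable (LR c)) ∧ ∀ x : ℝ, 0 < x →
  IntegrableOn (fun u => LR c u * Real.exp (-(x * u))) (Set.Ioi 0) ∧
  ∫ u in Set.Ioi (0 : ℝ), LR c u * Real.exp (-(x * u)) = Pr x * DS c x

/-- EEA: rules for expansions. -/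
structure EEA : Prop where
  const : ∀ a : ℝ, EE fun _ => a
  id : EE fun x => x
  add : ∀ f g : ℝ → ℝ, EE f → EE g → EE fun x => f x + g x
  mul : ∀ f g : ℝ → ℝ, EE f → EE g → EE fun x => f x * g x
  div : ∀ f g : ℝ → ℝ, EE f → EE g → (∃ c : ℝ, 0 < c ∧ ∀ x : ℝ, 0 < x → x < 1 → c ≤ |g x|) →
    EE fun x => f x / g x
  exp : ∀ a : ℝ, EE fun x => Real.exp (-(a * x))
  congr : ∀ f g : ℝ → ℝ, EE f → (∀ x : ℝ, 0 < x → x < 1 → f x = g x) → EE g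
  ana : ∀ f : ℝ → ℝ, (∀ x : ℝ, 0 ≤ x → x ≤ 1 → ContDiffAt ℝ ⊤ f x) → EE f
  flat : ∀ V W g : ℝ → ℝ, EE V → EE W → EE g → (∃ c : ℝ, 0 < c ∧ ∀ x : ℝ, 0 < x → x < 1 →
    c ≤ V x) → (∀ x : ℝ, 0 < x → x < 1 → V x * W x / √x = g x / x) →
    ∀ n : ℕ, ∃ C : ℝ, ∀ x : ℝ, 0 < x → x < 1 → |W x| ≤ C * x ^ n

/-- LOC: decay of the local sums gives an expansion. -/
def S_LOC : Prop := EEA → S_LAP → ∀ c : ℕ → ℝ, AC c →
  (∀ A : ℕ, ∃ C : ℝ, ∀ u : ℝ, 1 ≤ u → |LR c u| ≤ C / u ^ A) → EE (DS c)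

/-- ZV: the singular series. -/
def S_ZV : Prop := EEA → ∃ V : ℝ → ℝ, EE V ∧ (∃ c : ℝ, 0 < c ∧ ∀ x : ℝ, 0 < x → x < 1 →
  c ≤ V x) ∧ ∀ x : ℝ, 0 < x → x < 1 → ZZ x = V x / √x

/-- NV: the counting series. -/
def S_NV : Prop := EEA → ∃ V : ℝ → ℝ, EE V ∧ ∀ x : ℝ, 0 < x → x < 1 → NN x = V x / x

/-- HYP: power saving gives an expansion. -/
def S_HYP : Prop := ∀ (a : ℕ → ℝ) (c δ C : ℝ), (∀ k, 0 ≤ a k) → 0 < δ →
  (∀ X : ℝ, 2 ≤ X → |∑ k ∈ Ico 1 ⌈X⌉₊, a k - c * X| ≤ C * X ^ (1 - δ)) →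
  AC a ∧ ∃ g : ℝ → ℝ, EE g ∧ ∀ x : ℝ, 0 < x → x < 1 → DS a x = g x / x

/-- DET2: vanishing moments. -/
def S_DET2 : Prop := ∀ (t : ℝ → ℝ) (l : ℝ), Measurable t → 0 < l →
  IntegrableOn (fun u => |t u| * Real.exp (l * √u)) (Set.Ioi 0) →
  (∀ n : ℕ, ∫ u in Set.Ioi (0 : ℝ), t u * u ^ n = 0) →
  ∀ᵐ u ∂(volume.restrict (Set.Ioi (0 : ℝ))), t u = 0

/-- DET: a determinate moment problem. -/
def S_DET : Prop := ∀ t : ℝ → ℝ, Measurable t →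
  (∃ c C : ℝ, 0 < c ∧ ∀ u : ℝ, 1 ≤ u → t u ≤ C * Real.exp (-(c * √u))) →
  (∀ A : ℕ, ∃ C : ℝ, ∀ u : ℝ, 1 ≤ u → |t u| ≤ C / u ^ A) →
  (∃ M : ℝ, ∀ u : ℝ, 0 ≤ u → u ≤ 1 → |t u| ≤ M) →
  (∀ n : ℕ, ∃ C : ℝ, ∀ x : ℝ, 0 < x → x < 1 →
    |∫ u in Set.Ioi (0 : ℝ), t u * Real.exp (-(x * u))| ≤ C * x ^ n) →
  ∀ᵐ u ∂(volume.restrict (Set.Ioi (0 : ℝ))), t u = 0

end

end Pool.Agent.Y755.FK
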