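import Pool.Agent.Y755.FK.TopA
import Pool.Agent.Y797.FK.Disc
import Pool.Agent.Y486.FK.Amb1
import Pool.Agent.Y688.FK.Amb2
import Pool.Agent.Y629.FK.Sq
import Pool.Agent.Y168.FK.Leg
import Pool.Agent.Y473.FK.Alg
import Pool.Agent.Y814.FK.Rd

/-! Final assembly of project FK, part F. -/

set_option autoImplicit false
set_option linter.unusedVariables false

namespace Pool.Agent.Y755.FK

theorem a_AMB : S_AMB := Pool.Agent.Y688.FK.t_AMB2 Pool.Agent.Y486.FK.t_AMB1

theorem a_ALG : S_ALG :=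
  Pool.Agent.Y473.FK.Alg.t_ALG Pool.Agent.Y797.FK.t_DISC Pool.Agent.Y486.FK.t_AMB1 a_AMB
    Pool.Agent.Y629.FK.t_SQ Pool.Agent.Y168.FK.t_LEG

theorem a_RD : S_RD := Pool.Agent.Y814.FK.t_RD a_SEP a_SW

theorem top :
    ∀ F : ℤ → ℕ,
      (∀ d : ℤ,
        (∀ (K : Type) [Field K] [NumberField K],
            Module.finrank ℚ K = 2 → NumberField.discr K = d →
              F d = Nat.card {y : ClassGroup (NumberField.RingOfIntegers K) //
                ∃ x : ClassGroup (NumberField.RingOfIntegers K), x ^ 4 = 1 ∧ x ^ 2 = y}) ∧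
        ((¬ ∃ (K : Type) (_ : Field K) (_ : NumberField K),
            Module.finrank ℚ K = 2 ∧ NumberField.discr K = d) → F d = 0)) →
      ∀ c δ C : ℝ, 0 < δ →
        ∃ X : ℝ, 2 ≤ X ∧
          C * X ^ (1 - δ) < |(∑ d ∈ Finset.Ioo (-⌈X⌉) 0, (F d : ℝ)) - c * X| :=
  pre_all a_ALG a_RD

end Pool.Agent.Y755.FK
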