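import Pool.Agent.Y755.FK.Stm

/-! Final assembly of project FK, part A: series. -/

set_option autoImplicit false
set_option linter.unusedVariables false

open Finset MeasureTheory Filter

open scoped Classical

namespace Pool.Agent.Y755.FK

noncomputable section

lemma ep_mem (b : Bool) : ep b = 1 ∨ ep b = -1 := by cases b <;> simp [ep]
lemma tw_mem (b : Bool) : tw b = 1 ∨ tw b = 2 := by cases b <;> simp [tw]

lemma c1_mem (i : Fin 3) (T : Ix) : c1 i T ∈ KK := by
  obtain ⟨a, b, c, d⟩ := T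
  fin_cases i <;> cases a <;> cases b <;> cases c <;> cases d <;> simp [c1, KK, ep]
lemma c2_mem (i : Fin 3) (T : Ix) : c2 i T ∈ KK := by
  obtain ⟨a, b, c, d⟩ := T
  fin_cases i <;> cases a <;> cases b <;> cases c <;> cases d <;> simp [c2, KK, ep, tw]
lemma c3_mem (i : Fin 3) (T : Ix) : c3 i T ∈ KK := by
  obtain ⟨a, b, c, d⟩ := T
  fin_cases i <;> cases a <;> cases b <;> cases c <;> cases d <;> simp [c3, KK, ep]
lemma c4_mem (i : Fin 3) (T : Ix) : c4 i T ∈ KK := by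
  obtain ⟨a, b, c, d⟩ := T
  fin_cases i <;> cases a <;> cases b <;> cases c <;> cases d <;> simp [c4, KK, ep, tw]

/-- term of the series -/
def dt (c : ℕ → ℝ) (x : ℝ) (k : ℕ) : ℝ := if k = 0 then 0 else c k * (k : ℝ) ^ (-(1 + x))

lemma dt_summable {c : ℕ → ℝ} (h : AC c) {x : ℝ} (hx : 0 < x) : Summable (dt c x) := by
  apply Summable.of_norm
  refine (h x hx).congr fun k => ?_
  unfold dt
  split_ifs with hk
  · simp
  · rw [norm_mul, Real.norm_eq_abs, Real.norm_of_nonneg (by positivity)]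

lemma DS_eq (c : ℕ → ℝ) (x : ℝ) : DS c x = ∑' k, dt c x k := rfl

lemma DS_sum {ι : Type} (s : Finset ι) (b : ι → ℝ) (c : ι → ℕ → ℝ) (h : ∀ i ∈ s, AC (c i)) {x : ℝ}
    (hx : 0 < x) : DS (fun k => ∑ i ∈ s, b i * c i k) x = ∑ i ∈ s, b i * DS (c i) x := by
  simp only [DS_eq]
  rw [show (∑ i ∈ s, b i * ∑' k, dt (c i) x k) = ∑ i ∈ s, ∑' k, b i * dt (c i) x k from
    Finset.sum_congr rfl fun i hi => (tsum_mul_left).symm]
  rw [← Summable.tsum_finsetSum fun i hi => (dt_summable (h i hi) hx).mul_left _]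
  apply tsum_congr
  intro k
  unfold dt
  split_ifs with hk
  · simp
  · rw [Finset.sum_mul]
    apply Finset.sum_congr rfl
    intro i _
    ring

lemma AC_sum {ι : Type} (s : Finset ι) (b : ι → ℝ) (c : ι → ℕ → ℝ) (h : ∀ i ∈ s, AC (c i)) :
    AC (fun k => ∑ i ∈ s, b i * c i k) := by
  intro x hx
  have h1 : Summable fun k : ℕ => ∑ i ∈ s, |b i| * (if k = 0 then 0 else
      |c i k| * (k : ℝ) ^ (-(1 + x))) :=
    summable_sum fun i hi => ((h i hi) x hx).mul_left _
  refine Summable.of_nonneg_of_le (fun k => ?_) (fun k => ?_) h1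
  · split_ifs <;> positivity
  · split_ifs with hk
    · simp
    · calc |∑ i ∈ s, b i * c i k| * (k : ℝ) ^ (-(1 + x))
          ≤ (∑ i ∈ s, |b i * c i k|) * (k : ℝ) ^ (-(1 + x)) := by
            gcongr
            exact Finset.abs_sum_le_sum_abs _ _
        _ = _ := by
            rw [Finset.sum_mul]
            apply Finset.sum_congr rfl
            intro i _
            rw [abs_mul]
            ring

lemma DS_congr {c c' : ℕ → ℝ} (h : ∀ k, 1 ≤ k → c k = c' k) (x : ℝ) : DS c x = DS c' x := by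
  unfold DS
  apply tsum_congr
  intro k
  split_ifs with hk
  · rfl
  · rw [h k (by omega)]

lemma AC_congr {c c' : ℕ → ℝ} (h : ∀ k, 1 ≤ k → c k = c' k) (hc : AC c) : AC c' := by
  intro x hx
  refine (hc x hx).congr fun k => ?_
  split_ifs with hk
  · rfl
  · rw [h k (by omega)]

/-- coefficients at multiples of `m` -/
def dil (m : ℕ) (c : ℕ → ℝ) (k : ℕ) : ℝ := if m ∣ k then c (k / m) else 0

lemma DS_dil (m : ℕ) (hm : 1 ≤ m) (c : ℕ → ℝ) (x : ℝ) :
    DS (dil m c) x = (m : ℝ) ^ (-(1 + x)) * DS c x := by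
  rw [DS_eq, DS_eq, ← tsum_mul_left]
  have hinj : Function.Injective fun k : ℕ => m * k := fun a b hab =>
    Nat.eq_of_mul_eq_mul_left (by omega) hab
  have hsup : Function.support (dt (dil m c) x) ⊆ Set.range fun k : ℕ => m * k := by
    intro k hk
    rw [Function.mem_support] at hk
    unfold dt dil at hk
    by_cases h0 : k = 0
    · exact ⟨0, by simp [h0]⟩
    · rw [if_neg h0] at hk
      by_cases hd : m ∣ k
      · obtain ⟨j, rfl⟩ := hd
        exact ⟨j, rfl⟩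
      · rw [if_neg hd] at hk
        simp at hk
  rw [← hinj.tsum_eq hsup]
  apply tsum_congr
  intro k
  unfold dt dil
  by_cases hk : k = 0
  · simp [hk]
  · have hmk : m * k ≠ 0 := by positivity
    simp only [hk, hmk, if_false]
    rw [if_pos (Dvd.intro _ rfl), Nat.mul_div_cancel_left _ (by omega), Nat.cast_mul,
      Real.mul_rpow (by positivity) (by positivity)]
    ring

lemma AC_dil (m : ℕ) (hm : 1 ≤ m) (c : ℕ → ℝ) (hc : AC c) : AC (dil m c) := by
  intro x hx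
  have hinj : Function.Injective fun k : ℕ => m * k := fun a b hab =>
    Nat.eq_of_mul_eq_mul_left (by omega) hab
  rw [← Function.Injective.summable_iff hinj]
  · refine ((hc x hx).mul_left ((m : ℝ) ^ (-(1 + x)))).congr fun k => ?_
    simp only [Function.comp]
    unfold dil
    by_cases hk : k = 0
    · simp [hk]
    · have hmk : m * k ≠ 0 := by positivity
      simp only [hk, hmk, if_false]
      rw [if_pos (Dvd.intro _ rfl), Nat.mul_div_cancel_left _ (by omega), Nat.cast_mul,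
        Real.mul_rpow (by positivity) (by positivity)]
      ring
  · intro k hk
    unfold dil
    by_cases h0 : k = 0
    · simp [h0]
    · rw [if_neg h0]
      by_cases hd : m ∣ k
      · obtain ⟨j, rfl⟩ := hd
        exact absurd ⟨j, rfl⟩ hk
      · rw [if_neg hd]
        simp

/-- the coefficients of a family -/
def Ai (i : Fin 3) (k : ℕ) : ℝ := if osf k then fv i k else 0

lemma Ai_eq (hC : S_COMB) (i : Fin 3) (k : ℕ) : Ai i k =
    ∑ T : Ix, co i T * (if osf k then g4 (c1 i T) (c2 i T) (c3 i T) (c4 i T) k else 0) := by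
  unfold Ai
  split_ifs with h
  · rw [hC i k h]
  · simp

lemma Ai_AC (hC : S_COMB) (hA : S_ACA) (i : Fin 3) : AC (Ai i) := by
  have : Ai i = fun k => ∑ T : Ix, co i T *
      (if osf k then g4 (c1 i T) (c2 i T) (c3 i T) (c4 i T) k else 0) :=
    funext fun k => Ai_eq hC i k
  rw [this]
  exact AC_sum _ _ _ fun T _ => (hA _ _ _ _ (c1_mem i T) (c2_mem i T) (c3_mem i T)
    (c4_mem i T)).1

/-- the constant of a family -/
def Mf (i : Fin 3) : ℝ := ∑ T : Ix, co i T * (nt (c1 i T) (c2 i T) * nt (c3 i T) (c4 i T))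

/-- the coefficient of the singular series -/
def Wf (i : Fin 3) (x : ℝ) : ℝ := ∑ T : Ix, co i T *
  (nt (c1 i T) (c2 i T) * HH (c3 i T) (c4 i T) x + nt (c3 i T) (c4 i T) * HH (c1 i T) (c2 i T) x)

/-- the smooth part -/
def Rf (i : Fin 3) (x : ℝ) : ℝ := ∑ T : Ix, co i T *
  (DS (rr (c1 i T) (c2 i T) (c3 i T) (c4 i T)) x - bt (c1 i T) (c2 i T) *
    DS (r1 (c3 i T) (c4 i T)) x - bt (c3 i T) (c4 i T) * DS (r1 (c1 i T) (c2 i T)) x +
      bt (c1 i T) (c2 i T) * bt (c3 i T) (c4 i T))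

lemma Ai_DS (hC : S_COMB) (hA : S_ACA) (hF : S_FAC) (i : Fin 3) {x : ℝ} (hx : 0 < x) :
    DS (Ai i) x = Mf i * NN x + ZZ x * Wf i x + Rf i x := by
  have h1 : Ai i = fun k => ∑ T : Ix, co i T *
      (if osf k then g4 (c1 i T) (c2 i T) (c3 i T) (c4 i T) k else 0) :=
    funext fun k => Ai_eq hC i k
  rw [h1, DS_sum _ _ _ (fun T _ => (hA _ _ _ _ (c1_mem i T) (c2_mem i T) (c3_mem i T)
    (c4_mem i T)).1) hx]
  have h2 : ∀ T : Ix, DS (fun k => if osf k then g4 (c1 i T) (c2 i T) (c3 i T) (c4 i T) k else 0) x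
      = AT (c1 i T) (c2 i T) (c3 i T) (c4 i T) x := fun T => rfl
  simp only [h2]
  unfold Mf Wf Rf
  rw [Finset.sum_mul, Finset.mul_sum, ← Finset.sum_add_distrib, ← Finset.sum_add_distrib]
  apply Finset.sum_congr rfl
  intro T _
  rw [hF _ _ _ _ (c1_mem i T) (c2_mem i T) (c3_mem i T) (c4_mem i T) x hx]
  ring

/-- the coefficients given by the class groups -/
lemma a_eq (hALG : S_ALG) {F : ℤ → ℕ} (hF : HF F) (k : ℕ) (hk : 1 ≤ k) : (F (-(k : ℤ)) : ℝ) =
    Ai 0 k + dil 4 (Ai 1) k + dil 8 (Ai 2) k := by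
  rw [hALG F hF k hk]
  unfold Ai dil
  congr 1
  · congr 1
    by_cases h4 : 4 ∣ k
    · simp [h4]
    · simp [h4]
  · by_cases h8 : 8 ∣ k
    · simp [h8]
    · simp [h8]

/-- the three parts -/
def Bj (j : Fin 3) : ℕ → ℝ :=
  match j with
  | 0 => Ai 0
  | 1 => dil 4 (Ai 1)
  | 2 => dil 8 (Ai 2)

lemma a_DS (hC : S_COMB) (hA : S_ACA) (hFac : S_FAC) (hALG : S_ALG) {F : ℤ → ℕ} (hF : HF F)
    {x : ℝ} (hx : 0 < x) : DS (fun k => (F (-(k : ℤ)) : ℝ)) x =
      (Mf 0 * NN x + ZZ x * Wf 0 x + Rf 0 x) +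
      (4 : ℝ) ^ (-(1 + x)) * (Mf 1 * NN x + ZZ x * Wf 1 x + Rf 1 x) +
      (8 : ℝ) ^ (-(1 + x)) * (Mf 2 * NN x + ZZ x * Wf 2 x + Rf 2 x) := by
  have hc : ∀ j : Fin 3, AC (Bj j) := by
    intro j
    match j with
    | 0 => exact Ai_AC hC hA 0
    | 1 => exact AC_dil 4 (by norm_num) _ (Ai_AC hC hA 1)
    | 2 => exact AC_dil 8 (by norm_num) _ (Ai_AC hC hA 2)
  have h1 : DS (fun k => (F (-(k : ℤ)) : ℝ)) x = DS (fun k => ∑ j : Fin 3, (1 : ℝ) *
      Bj j k) x := by
    apply DS_congr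
    intro k hk
    rw [a_eq hALG hF k hk, Fin.sum_univ_three]
    simp [Bj]
  rw [h1, DS_sum _ _ _ (fun j _ => hc j) hx, Fin.sum_univ_three]
  simp only [one_mul]
  have e0 : Bj 0 = Ai 0 := rfl
  have e1 : Bj 1 = dil 4 (Ai 1) := rfl
  have e2 : Bj 2 = dil 8 (Ai 2) := rfl
  rw [e0, e1, e2, DS_dil 4 (by norm_num), DS_dil 8 (by norm_num), Ai_DS hC hA hFac 0 hx,
    Ai_DS hC hA hFac 1 hx, Ai_DS hC hA hFac 2 hx]
  norm_num

end

end Pool.Agent.Y755.FK
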