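import Pool.Agent.Y755.FK.FinA

/-! Final assembly of project FK, part B: flatness and the moment problem. -/

set_option autoImplicit false
set_option linter.unusedVariables false

open Finset MeasureTheory Filter

open scoped Classical

namespace Pool.Agent.Y755.FK

noncomputable section

lemma EE_sum (hE : EEA) {ι : Type} (s : Finset ι) (f : ι → ℝ → ℝ) (h : ∀ i ∈ s, EE (f i)) :
    EE (fun x => ∑ i ∈ s, f i x) := by
  induction s using Finset.induction_on with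
  | empty => simpa using hE.const 0
  | insert a s ha ih =>
    simp only [Finset.sum_insert ha]
    exact hE.add _ _ (h a (Finset.mem_insert_self _ _))
      (ih fun i hi => h i (Finset.mem_insert_of_mem hi))

lemma EE_smul (hE : EEA) (a : ℝ) {f : ℝ → ℝ} (h : EE f) : EE (fun x => a * f x) :=
  hE.mul _ _ (hE.const a) h

lemma EE_sub (hE : EEA) {f g : ℝ → ℝ} (hf : EE f) (hg : EE g) : EE (fun x => f x - g x) := by
  have := hE.add _ _ hf (EE_smul hE (-1) hg)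
  refine hE.congr _ _ this fun x _ _ => by ring

lemma EE_pow (hE : EEA) {m : ℝ} (hm : 0 < m) : EE (fun x => m ^ (-(1 + x))) := by
  refine hE.congr _ _ (EE_smul hE (m⁻¹) (hE.exp (Real.log m))) fun x _ _ => ?_
  rw [Real.rpow_def_of_pos hm, show Real.log m * -(1 + x) = -Real.log m + -(Real.log m * x) by ring,
    Real.exp_add, Real.exp_neg (Real.log m), Real.exp_log hm]

/-- the coefficient of the singular series, all families -/
def Wt (x : ℝ) : ℝ := Wf 0 x + (4 : ℝ) ^ (-(1 + x)) * Wf 1 x + (8 : ℝ) ^ (-(1 + x)) * Wf 2 x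

lemma HH_EE (hE : EEA) (hL : S_LAP) (hLoc : S_LOC) (hA : S_ACA) (hHW : S_HW) (hT : S_TDEC)
    {e f : ℤ} (he : e ∈ KK) (hf : f ∈ KK) : EE (HH e f) := by
  have h1 := hLoc hE hL (we e f) (hA e f e f he hf he hf).2.2.2.1 (fun A => hT e f A he hf)
  exact hE.congr _ _ h1 fun x hx _ => hHW e f he hf x hx

lemma Wf_EE (hE : EEA) (hL : S_LAP) (hLoc : S_LOC) (hA : S_ACA) (hHW : S_HW) (hT : S_TDEC)
    (i : Fin 3) : EE (Wf i) := by
  unfold Wf
  refine EE_sum hE _ _ fun T _ => EE_smul hE _ (hE.add _ _ (EE_smul hE _ ?_) (EE_smul hE _ ?_))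
  · exact HH_EE hE hL hLoc hA hHW hT (c3_mem i T) (c4_mem i T)
  · exact HH_EE hE hL hLoc hA hHW hT (c1_mem i T) (c2_mem i T)

lemma Rf_EE (hE : EEA) (hL : S_LAP) (hLoc : S_LOC) (hA : S_ACA) (hR : S_RD) (hR1 : S_RD1)
    (i : Fin 3) : EE (Rf i) := by
  unfold Rf
  refine EE_sum hE _ _ fun T _ => EE_smul hE _ ?_
  have h1 : EE (DS (rr (c1 i T) (c2 i T) (c3 i T) (c4 i T))) :=
    hLoc hE hL _ (hA _ _ _ _ (c1_mem i T) (c2_mem i T) (c3_mem i T) (c4_mem i T)).2.1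
      (fun A => hR _ _ _ _ A (c1_mem i T) (c2_mem i T) (c3_mem i T) (c4_mem i T))
  have h2 : EE (DS (r1 (c3 i T) (c4 i T))) :=
    hLoc hE hL _ (hA _ _ _ _ (c3_mem i T) (c4_mem i T) (c3_mem i T) (c4_mem i T)).2.2.1
      (fun A => hR1 _ _ A (c3_mem i T) (c4_mem i T))
  have h3 : EE (DS (r1 (c1 i T) (c2 i T))) :=
    hLoc hE hL _ (hA _ _ _ _ (c1_mem i T) (c2_mem i T) (c1_mem i T) (c2_mem i T)).2.2.1
      (fun A => hR1 _ _ A (c1_mem i T) (c2_mem i T))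
  exact hE.add _ _ (EE_sub hE (EE_sub hE h1 (EE_smul hE _ h2)) (EE_smul hE _ h3)) (hE.const _)

theorem flatW (hC : S_COMB) (hA : S_ACA) (hFac : S_FAC) (hALG : S_ALG) (hE : EEA) (hL : S_LAP)
    (hLoc : S_LOC) (hHW : S_HW) (hT : S_TDEC) (hR : S_RD) (hR1 : S_RD1) (hZ : S_ZV) (hN : S_NV)
    (hH : S_HYP) {F : ℤ → ℕ} (hF : HF F) (c δ C : ℝ) (hδ : 0 < δ)
    (hs : ∀ X : ℝ, 2 ≤ X → |∑ k ∈ Ico 1 ⌈X⌉₊, (F (-(k : ℤ)) : ℝ) - c * X| ≤ C * X ^ (1 - δ)) :
    ∀ n : ℕ, ∃ C : ℝ, ∀ x : ℝ, 0 < x → x < 1 → |Wt x| ≤ C * x ^ n := by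
  obtain ⟨V, hV, hVc, hVZ⟩ := hZ hE
  obtain ⟨N0, hN0, hNN⟩ := hN hE
  obtain ⟨-, g, hg, hgD⟩ := hH (fun k => (F (-(k : ℤ)) : ℝ)) c δ C (fun k => Nat.cast_nonneg _) hδ hs
  have e4 := EE_pow hE (show (0 : ℝ) < 4 by norm_num)
  have e8 := EE_pow hE (show (0 : ℝ) < 8 by norm_num)
  have hW : EE Wt := by
    unfold Wt
    exact hE.add _ _ (hE.add _ _ (Wf_EE hE hL hLoc hA hHW hT 0)
      (hE.mul _ _ e4 (Wf_EE hE hL hLoc hA hHW hT 1))) (hE.mul _ _ e8 (Wf_EE hE hL hLoc hA hHW hT 2))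
  have hM : EE (fun x => (Mf 0 + (4 : ℝ) ^ (-(1 + x)) * Mf 1 + (8 : ℝ) ^ (-(1 + x)) * Mf 2) * N0 x) :=
    hE.mul _ _ (hE.add _ _ (hE.add _ _ (hE.const _) (hE.mul _ _ e4 (hE.const _)))
      (hE.mul _ _ e8 (hE.const _))) hN0
  have hRR : EE (fun x => x * (Rf 0 x + (4 : ℝ) ^ (-(1 + x)) * Rf 1 x +
      (8 : ℝ) ^ (-(1 + x)) * Rf 2 x)) :=
    hE.mul _ _ hE.id (hE.add _ _ (hE.add _ _ (Rf_EE hE hL hLoc hA hR hR1 0)
      (hE.mul _ _ e4 (Rf_EE hE hL hLoc hA hR hR1 1))) (hE.mul _ _ e8 (Rf_EE hE hL hLoc hA hR hR1 2)))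
  have hG := EE_sub hE (EE_sub hE hg hM) hRR
  refine hE.flat V Wt _ hV hW hG hVc fun x hx hx1 => ?_
  have h1 := a_DS hC hA hFac hALG hF hx
  rw [hgD x hx hx1, hVZ x hx hx1, hNN x hx hx1] at h1
  have hx0 : x ≠ 0 := hx.ne'
  have h2 : V x * Wt x / √x = V x / √x * Wf 0 x + (4 : ℝ) ^ (-(1 + x)) * (V x / √x * Wf 1 x) +
      (8 : ℝ) ^ (-(1 + x)) * (V x / √x * Wf 2 x) := by
    unfold Wt
    ring
  rw [h2]
  have h3 : (g x - (Mf 0 + (4 : ℝ) ^ (-(1 + x)) * Mf 1 + (8 : ℝ) ^ (-(1 + x)) * Mf 2) * N0 x -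
      x * (Rf 0 x + (4 : ℝ) ^ (-(1 + x)) * Rf 1 x + (8 : ℝ) ^ (-(1 + x)) * Rf 2 x)) / x =
      g x / x - (Mf 0 + (4 : ℝ) ^ (-(1 + x)) * Mf 1 + (8 : ℝ) ^ (-(1 + x)) * Mf 2) * (N0 x / x) -
      (Rf 0 x + (4 : ℝ) ^ (-(1 + x)) * Rf 1 x + (8 : ℝ) ^ (-(1 + x)) * Rf 2 x) := by
    field_simp
  rw [h3, h1]
  ring

/-! ### local sums -/

lemma φ_nonpos {v : ℝ} (hv : v ≤ 0) : φ v = 0 := by
  unfold φ
  split_ifs with h
  · have : v = 0 := le_antisymm hv h.1
    rw [this]; norm_num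
  · rfl

lemma φ_nonneg (v : ℝ) : 0 ≤ φ v := by
  unfold φ
  split_ifs <;> positivity

lemma φ_le (v : ℝ) : φ v ≤ 1 := by
  unfold φ
  split_ifs with h
  · have h1 : 0 ≤ v * (1 - v) := mul_nonneg h.1 (by linarith [h.2])
    have h2 : v * (1 - v) ≤ 1 := by nlinarith [h.1, h.2]
    exact pow_le_one₀ h1 h2
  · norm_num

lemma LR_nonpos (c : ℕ → ℝ) {v : ℝ} (hv : v ≤ 0) : LR c v = 0 := by
  unfold LR
  apply Finset.sum_eq_zero
  intro k hk
  rw [Finset.mem_Icc] at hk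
  rw [φ_nonpos, mul_zero]
  have : 0 ≤ Real.log k := Real.log_natCast_nonneg k
  linarith

lemma LR_bdd (c : ℕ → ℝ) (V : ℝ) : ∃ M : ℝ, ∀ v : ℝ, v ≤ V → |LR c v| ≤ M := by
  refine ⟨∑ k ∈ Icc 1 ⌊Real.exp V⌋₊, |c k|, fun v hv => ?_⟩
  unfold LR
  refine (Finset.abs_sum_le_sum_abs _ _).trans ?_
  calc ∑ k ∈ Icc 1 ⌊Real.exp v⌋₊, |c k / k * φ (v - Real.log k)|
      ≤ ∑ k ∈ Icc 1 ⌊Real.exp v⌋₊, |c k| := by
        apply Finset.sum_le_sum
        intro k hk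
        rw [Finset.mem_Icc] at hk
        have hk1 : (1 : ℝ) ≤ k := by exact_mod_cast hk.1
        rw [abs_mul, abs_div, abs_of_nonneg (φ_nonneg _), Nat.abs_cast]
        calc |c k| / k * φ (v - Real.log k) ≤ |c k| / 1 * 1 := by
              refine mul_le_mul ?_ (φ_le _) (φ_nonneg _) (by positivity)
              gcongr
          _ = |c k| := by ring
    _ ≤ _ := by
        apply Finset.sum_le_sum_of_subset_of_nonneg
        · apply Finset.Icc_subset_Icc_right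
          exact Nat.floor_le_floor (Real.exp_le_exp.2 hv)
        · intro k _ _
          exact abs_nonneg _

lemma tt_nonpos (e f : ℤ) {v : ℝ} (hv : v ≤ 0) : tt e f v = 0 := LR_nonpos _ hv

lemma tfam_nonpos (i : Fin 3) {v : ℝ} (hv : v ≤ 0) : tfam i v = 0 := by
  unfold tfam
  simp [tt_nonpos _ _ hv]

lemma tfam_bdd (i : Fin 3) (V : ℝ) : ∃ M : ℝ, ∀ v : ℝ, v ≤ V → |tfam i v| ≤ M := by
  choose M hM using fun (e f : ℤ) => LR_bdd (we e f) V
  refine ⟨∑ T : Ix, |co i T| * (|nt (c1 i T) (c2 i T)| * M (c3 i T) (c4 i T) +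
    |nt (c3 i T) (c4 i T)| * M (c1 i T) (c2 i T)), fun v hv => ?_⟩
  unfold tfam
  refine (Finset.abs_sum_le_sum_abs _ _).trans (Finset.sum_le_sum fun T _ => ?_)
  rw [abs_mul]
  gcongr
  refine (abs_add_le _ _).trans ?_
  rw [abs_mul, abs_mul]
  gcongr
  · exact hM _ _ v hv
  · exact hM _ _ v hv

lemma tfam_dec (hT : S_TDEC) (i : Fin 3) (A : ℕ) : ∃ C : ℝ, 0 ≤ C ∧ ∀ u : ℝ, 1 ≤ u →
    |tfam i u| ≤ C / u ^ A := by
  have h : ∀ e f : ℤ, ∃ C : ℝ, 0 ≤ C ∧ (e ∈ KK → f ∈ KK → ∀ u : ℝ, 1 ≤ u →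
      |tt e f u| ≤ C / u ^ A) := by
    intro e f
    by_cases he : e ∈ KK ∧ f ∈ KK
    · obtain ⟨C, hC⟩ := hT e f A he.1 he.2
      refine ⟨max C 0, le_max_right _ _, fun _ _ u hu => (hC u hu).trans ?_⟩
      have : 0 < u ^ A := by positivity
      gcongr
      exact le_max_left _ _
    · exact ⟨0, le_rfl, fun h1 h2 => absurd ⟨h1, h2⟩ he⟩
  choose M hM0 hM using h
  refine ⟨∑ T : Ix, |co i T| * (|nt (c1 i T) (c2 i T)| * M (c3 i T) (c4 i T) +
    |nt (c3 i T) (c4 i T)| * M (c1 i T) (c2 i T)), ?_, fun u hu => ?_⟩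
  · apply Finset.sum_nonneg
    intro T _
    have := hM0 (c3 i T) (c4 i T)
    have := hM0 (c1 i T) (c2 i T)
    positivity
  · unfold tfam
    rw [Finset.sum_div]
    refine (Finset.abs_sum_le_sum_abs _ _).trans (Finset.sum_le_sum fun T _ => ?_)
    rw [abs_mul, mul_div_assoc, add_div, mul_div_assoc, mul_div_assoc]
    gcongr
    refine (abs_add_le _ _).trans ?_
    rw [abs_mul, abs_mul]
    gcongr
    · exact hM _ _ (c3_mem i T) (c4_mem i T) u hu
    · exact hM _ _ (c1_mem i T) (c2_mem i T) u hu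

lemma tfam_meas (hA : S_ACA) (hL : S_LAP) (i : Fin 3) : Measurable (tfam i) := by
  have h : ∀ e f : ℤ, e ∈ KK → f ∈ KK → Measurable (tt e f) := fun e f he hf =>
    (hL (we e f) (hA e f e f he hf he hf).2.2.2.1).1
  unfold tfam
  refine Finset.measurable_sum _ fun T _ => ?_
  exact (((h _ _ (c3_mem i T) (c4_mem i T)).const_mul _).add
    ((h _ _ (c1_mem i T) (c2_mem i T)).const_mul _)).const_mul _

lemma tfam_int (hA : S_ACA) (hL : S_LAP) (hHW : S_HW) (i : Fin 3) {x : ℝ} (hx : 0 < x) :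
    IntegrableOn (fun u => tfam i u * Real.exp (-(x * u))) (Set.Ioi 0) ∧
    ∫ u in Set.Ioi (0 : ℝ), tfam i u * Real.exp (-(x * u)) = Pr x * Wf i x := by
  have h : ∀ e f : ℤ, e ∈ KK → f ∈ KK →
      IntegrableOn (fun u => tt e f u * Real.exp (-(x * u))) (Set.Ioi 0) ∧
      ∫ u in Set.Ioi (0 : ℝ), tt e f u * Real.exp (-(x * u)) = Pr x * HH e f x := by
    intro e f he hf
    have h1 := (hL (we e f) (hA e f e f he hf he hf).2.2.2.1).2 x hx
    rw [hHW e f he hf x hx] at h1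
    exact h1
  have e1 : (fun u => tfam i u * Real.exp (-(x * u))) = fun u => ∑ T : Ix,
      (co i T * nt (c1 i T) (c2 i T) * (tt (c3 i T) (c4 i T) u * Real.exp (-(x * u))) +
        co i T * nt (c3 i T) (c4 i T) * (tt (c1 i T) (c2 i T) u * Real.exp (-(x * u)))) := by
    funext u
    unfold tfam
    rw [Finset.sum_mul]
    apply Finset.sum_congr rfl
    intro T _
    ring
  have hi : ∀ T : Ix, IntegrableOn (fun u =>
      (co i T * nt (c1 i T) (c2 i T) * (tt (c3 i T) (c4 i T) u * Real.exp (-(x * u))) +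
        co i T * nt (c3 i T) (c4 i T) * (tt (c1 i T) (c2 i T) u * Real.exp (-(x * u)))))
      (Set.Ioi 0) := fun T =>
    Integrable.add (((h _ _ (c3_mem i T) (c4_mem i T)).1).const_mul _)
      (((h _ _ (c1_mem i T) (c2_mem i T)).1).const_mul _)
  rw [e1]
  refine ⟨integrable_finsetSum _ fun T _ => hi T, ?_⟩
  rw [integral_finsetSum _ fun T _ => hi T]
  unfold Wf
  rw [Finset.mul_sum]
  apply Finset.sum_congr rfl
  intro T _
  rw [integral_add (((h _ _ (c3_mem i T) (c4_mem i T)).1).const_mul _)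
      (((h _ _ (c1_mem i T) (c2_mem i T)).1).const_mul _), integral_const_mul, integral_const_mul,
    (h _ _ (c3_mem i T) (c4_mem i T)).2, (h _ _ (c1_mem i T) (c2_mem i T)).2]
  ring

lemma shift_int {g : ℝ → ℝ} (hg : ∀ v, v ≤ 0 → g v = 0) {a x : ℝ} (ha : 0 ≤ a)
    (hi : IntegrableOn (fun u => g u * Real.exp (-(x * u))) (Set.Ioi 0)) :
    IntegrableOn (fun u => g (u - a) * Real.exp (-(x * u))) (Set.Ioi 0) ∧
    ∫ u in Set.Ioi (0 : ℝ), g (u - a) * Real.exp (-(x * u)) =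
      Real.exp (-(x * a)) * ∫ u in Set.Ioi (0 : ℝ), g u * Real.exp (-(x * u)) := by
  have e1 : (Set.Ioi (0 : ℝ)).indicator (fun u => g (u - a) * Real.exp (-(x * u))) = fun u =>
      Real.exp (-(x * a)) * (Set.Ioi (0 : ℝ)).indicator (fun u => g u * Real.exp (-(x * u)))
        (u - a) := by
    funext u
    by_cases h1 : 0 < u - a
    · have h2 : 0 < u := by linarith
      rw [Set.indicator_of_mem (show u ∈ Set.Ioi (0 : ℝ) from h2),
        Set.indicator_of_mem (show u - a ∈ Set.Ioi (0 : ℝ) from h1)]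
      rw [show -(x * u) = -(x * a) + -(x * (u - a)) by ring, Real.exp_add]
      ring
    · rw [Set.indicator_of_notMem (show u - a ∉ Set.Ioi (0 : ℝ) from h1), mul_zero]
      by_cases h2 : 0 < u
      · rw [Set.indicator_of_mem (show u ∈ Set.Ioi (0 : ℝ) from h2), hg _ (not_lt.1 h1), zero_mul]
      · rw [Set.indicator_of_notMem (show u ∉ Set.Ioi (0 : ℝ) from h2)]
  have hi2 := (integrable_indicator_iff measurableSet_Ioi).2 hi
  constructor
  · rw [← integrable_indicator_iff measurableSet_Ioi, e1]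
    exact (hi2.comp_sub_right a).const_mul _
  · rw [← integral_indicator measurableSet_Ioi, e1, integral_const_mul,
      integral_sub_right_eq_self (fun u => (Set.Ioi (0 : ℝ)).indicator
        (fun u => g u * Real.exp (-(x * u))) u) a, integral_indicator measurableSet_Ioi]

/-- the total local sum -/
def ttot (u : ℝ) : ℝ := tfam 0 u + 1 / 4 * tfam 1 (u - Real.log 4) + 1 / 8 * tfam 2 (u - Real.log 8)

lemma ttot_int (hA : S_ACA) (hL : S_LAP) (hHW : S_HW) {x : ℝ} (hx : 0 < x) :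
    ∫ u in Set.Ioi (0 : ℝ), ttot u * Real.exp (-(x * u)) = Pr x * Wt x := by
  have h0 := tfam_int hA hL hHW 0 hx
  have h1 := tfam_int hA hL hHW 1 hx
  have h2 := tfam_int hA hL hHW 2 hx
  have s1 := shift_int (fun v hv => tfam_nonpos 1 hv) (Real.log_nonneg (show (1 : ℝ) ≤ 4 by norm_num))
    h1.1
  have s2 := shift_int (fun v hv => tfam_nonpos 2 hv) (Real.log_nonneg (show (1 : ℝ) ≤ 8 by norm_num))
    h2.1
  have e1 : (fun u => ttot u * Real.exp (-(x * u))) = fun u =>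
      (tfam 0 u * Real.exp (-(x * u)) + 1 / 4 * (tfam 1 (u - Real.log 4) * Real.exp (-(x * u)))) +
        1 / 8 * (tfam 2 (u - Real.log 8) * Real.exp (-(x * u))) := by
    funext u
    unfold ttot
    ring
  have i0 : IntegrableOn (fun u => tfam 0 u * Real.exp (-(x * u)) +
      1 / 4 * (tfam 1 (u - Real.log 4) * Real.exp (-(x * u)))) (Set.Ioi 0) :=
    Integrable.add h0.1 (s1.1.const_mul _)
  have i2 : IntegrableOn (fun u => 1 / 8 * (tfam 2 (u - Real.log 8) * Real.exp (-(x * u))))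
      (Set.Ioi 0) := s2.1.const_mul _
  have i1 : IntegrableOn (fun u => 1 / 4 * (tfam 1 (u - Real.log 4) * Real.exp (-(x * u))))
      (Set.Ioi 0) := s1.1.const_mul _
  rw [e1, integral_add i0 i2,
    integral_add h0.1 i1, integral_const_mul, integral_const_mul, s1.2, s2.2,
    h0.2, h1.2, h2.2]
  unfold Wt
  have p4 : (4 : ℝ) ^ (-(1 + x)) = 1 / 4 * Real.exp (-(x * Real.log 4)) := by
    rw [Real.rpow_def_of_pos (by norm_num), show Real.log 4 * -(1 + x) =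
      -Real.log 4 + -(x * Real.log 4) by ring, Real.exp_add, Real.exp_neg,
      Real.exp_log (by norm_num)]
    norm_num
  have p8 : (8 : ℝ) ^ (-(1 + x)) = 1 / 8 * Real.exp (-(x * Real.log 8)) := by
    rw [Real.rpow_def_of_pos (by norm_num), show Real.log 8 * -(1 + x) =
      -Real.log 8 + -(x * Real.log 8) by ring, Real.exp_add, Real.exp_neg,
      Real.exp_log (by norm_num)]
    norm_num
  rw [p4, p8]
  ring

end

end Pool.Agent.Y755.FK
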