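import Pool.Agent.Y755.FK.FinC

/-! Final assembly of project FK, part D: the statement for all `F`. -/

set_option autoImplicit false
set_option linter.unusedVariables false

open Finset MeasureTheory Filter

namespace Pool.Agent.Y755.FK

theorem pre_top (hC : S_COMB) (hA : S_ACA) (hFac : S_FAC) (hALG : S_ALG) (hE : EEA) (hL : S_LAP)
    (hLoc : S_LOC) (hHW : S_HW) (hT : S_TDEC) (hO : S_TOS) (hR : S_RD) (hR1 : S_RD1) (hZ : S_ZV)
    (hN : S_NV) (hH : S_HYP) (hD : S_DET) :
    ∀ F : ℤ → ℕ,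
      (∀ d : ℤ,
        (∀ (K : Type) [Field K] [NumberField K],
            Module.finrank ℚ K = 2 → NumberField.discr K = d →
              F d = Nat.card {y : ClassGroup (NumberField.RingOfIntegers K) //
                ∃ x : ClassGroup (NumberField.RingOfIntegers K), x ^ 4 = 1 ∧ x ^ 2 = y}) ∧
        ((¬ ∃ (K : Type) (_ : Field K) (_ : NumberField K),
            Module.finrank ℚ K = 2 ∧ NumberField.discr K = d) → F d = 0)) →
      ∀ c δ C : ℝ, 0 < δ →
        ∃ X : ℝ, 2 ≤ X ∧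
          C * X ^ (1 - δ) < |(∑ d ∈ Finset.Ioo (-⌈X⌉) 0, (F d : ℝ)) - c * X| := by
  intro F hF c δ C hδ
  obtain ⟨X, hX, h⟩ := main_of hC hA hFac hALG hE hL hLoc hHW hT hO hR hR1 hZ hN hH hD
    (F := F) hF c δ C hδ
  refine ⟨X, hX, ?_⟩
  rw [sum_eq F hX]
  exact h

end Pool.Agent.Y755.FK
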