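import Pool.Agent.Y755.FK.Pre
import Pool.Agent.Y442.FK.Comb
import Pool.Agent.Y168.FK.Kpos
import Pool.Agent.Y469.FK.PHB
import Pool.Agent.Y409.FK.Inv
import Pool.Agent.Y409.FK.CT
import Pool.Agent.Y930.FK.CK
import Pool.Agent.Y442.FK.Sqr
import Pool.Agent.Y756.FK.Char
import Pool.Agent.Y568.FK.LD
import Pool.Agent.Y960.FK.Zfr
import Pool.Agent.Y844.FK.Lup
import Pool.Agent.Y844.FK.Sieg
import Pool.Agent.Y469.FK.EP
import Pool.Agent.Y473.FK.Tac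
import Pool.Agent.Y762.FK.ER
import Pool.Agent.Y801.FK.SW
import Pool.Agent.Y801.FK.TAU
import Pool.Agent.Y446.FK.OS
import Pool.Agent.Y905.FK.Bil
import Pool.Agent.Y473.FK.Fou
import Pool.Agent.Y240.FK.GB
import Pool.Agent.Y585.FK.Grp
import Pool.Agent.Y585.FK.Ew
import Pool.Agent.Y469.FK.TDEC
import Pool.Agent.Y473.FK.Tos
import Pool.Agent.Y846.FK.RD1
import Pool.Agent.Y756.FK.Aca
import Pool.Agent.Y780.FK.Fac
import Pool.Agent.Y401.FK.Lap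
import Pool.Agent.Y385.FK.EEARules
import Pool.Agent.Y401.FK.Loc
import Pool.Agent.Y248.FK.Zv
import Pool.Agent.Y762.FK.NV
import Pool.Agent.Y26.FK.HYP
import Pool.Agent.Y168.FK.Det2
import Pool.Agent.Y950.FK.Det

/-! Final assembly of project FK, part E: all analytic parts. -/

set_option autoImplicit false
set_option linter.unusedVariables false

namespace Pool.Agent.Y755.FK

theorem a_PHB : S_PHB := Pool.Agent.Y469.FK.t_PHB
theorem a_INV : S_INV := Pool.Agent.Y409.FK.t_INV a_PHB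
theorem a_CT : S_CT := Pool.Agent.Y409.FK.t_CT a_PHB a_INV
theorem a_CK : S_CK := Pool.Agent.Y930.FK.t_CK a_PHB a_INV
theorem a_SQR : S_SQR := Pool.Agent.Y442.FK.t_SQR
theorem a_CHAR : S_CHAR := Pool.Agent.Y756.FK.t_CHAR
theorem a_ZFR : S_ZFR := Pool.Agent.Y960.FK.t_ZFR Pool.Agent.Y568.FK.t_LD
theorem a_LUP : S_LUP := Pool.Agent.Y844.FK.t_LUP
theorem a_SIEG : S_SIEG := Pool.Agent.Y844.FK.t_SIEG
theorem a_EP : S_EP := Pool.Agent.Y469.FK.t_EP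
theorem a_EW : S_EW := Pool.Agent.Y585.FK.t_EW a_EP
theorem a_TAC : S_TAC := Pool.Agent.Y473.FK.t_TAC
theorem a_ER1 : S_ER1 := Pool.Agent.Y762.FK.ER.t_ER1 a_EP
theorem a_ER2 : S_ER2 := Pool.Agent.Y762.FK.ER.t_ER2 a_EP
theorem a_SW : S_SW :=
  Pool.Agent.Y801.FK.SW.t_SW a_CT a_SQR a_CHAR a_LUP a_SIEG a_ER1 a_ER2
theorem a_TAU : S_TAU :=
  Pool.Agent.Y801.FK.TAU.t_TAU a_CT a_SQR a_CHAR a_LUP a_SIEG a_EW a_TAC
theorem a_OS : S_OS :=
  Pool.Agent.Y446.FK.t_OS a_CT a_CK a_SQR a_CHAR a_ZFR a_LUP a_EW a_TAC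
theorem a_BIL : S_BIL := Pool.Agent.Y905.FK.t_BIL
theorem a_SEP : S_SEP := Pool.Agent.Y473.FK.t_SEP a_PHB a_BIL
theorem a_PSI : S_PSI := Pool.Agent.Y473.FK.t_PSI a_PHB
theorem a_GB : S_GB := Pool.Agent.Y240.FK.t_GB a_PHB a_BIL a_PSI
theorem a_GRP : S_GRP := Pool.Agent.Y585.FK.t_GRP a_GB
theorem a_TDEC : S_TDEC := Pool.Agent.Y469.FK.t_TDEC a_GRP a_TAU
theorem a_TOS : S_TOS :=
  Pool.Agent.Y473.FK.Tos.t_TOS a_GRP Pool.Agent.Y168.FK.t_KPOS a_OS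
theorem a_RD1 : S_RD1 := Pool.Agent.Y846.FK.t_RD1 a_SEP a_SW
theorem a_ACA : S_ACA := Pool.Agent.Y756.FK.t_ACA
theorem a_FAC : S_FAC := Pool.Agent.Y780.FK.t_FAC a_ACA
theorem a_HW : S_HW := Pool.Agent.Y473.FK.t_HW a_ACA
theorem a_LAP : S_LAP := Pool.Agent.Y401.FK.t_LAP
theorem a_EEA : EEA := Pool.Agent.Y385.FK.t_EEA
theorem a_LOC : S_LOC := Pool.Agent.Y401.FK.t_LOC
theorem a_ZV : S_ZV := Pool.Agent.Y248.FK.t_ZV a_EP
theorem a_NV : S_NV := Pool.Agent.Y762.FK.NV.t_NV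
theorem a_HYP : S_HYP := Pool.Agent.Y26.FK.t_HYP a_EEA
theorem a_DET : S_DET := Pool.Agent.Y950.FK.t_DET Pool.Agent.Y168.FK.t_DET2

/-- everything except the class groups and the smooth part -/
theorem pre_all (hALG : S_ALG) (hR : S_RD) :
    ∀ F : ℤ → ℕ,
      (∀ d : ℤ,
        (∀ (K : Type) [Field K] [NumberField K],
            Module.finrank ℚ K = 2 → NumberField.discr K = d →
              F d = Nat.card {y : ClassGroup (NumberField.RingOfIntegers K) //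
                ∃ x : ClassGroup (NumberField.RingOfIntegers K), x ^ 4 = 1 ∧ x ^ 2 = y}) ∧
        ((¬ ∃ (K : Type) (_ : Field K) (_ : NumberField K),
            Module.finrank ℚ K = 2 ∧ NumberField.discr K = d) → F d = 0)) →
      ∀ c δ C : ℝ, 0 < δ →
        ∃ X : ℝ, 2 ≤ X ∧
          C * X ^ (1 - δ) < |(∑ d ∈ Finset.Ioo (-⌈X⌉) 0, (F d : ℝ)) - c * X| :=
  pre_top Pool.Agent.Y442.FK.t_COMB a_ACA a_FAC hALG a_EEA a_LAP a_LOC a_HW a_TDEC a_TOS hR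
    a_RD1 a_ZV a_NV a_HYP a_DET

end Pool.Agent.Y755.FK
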